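import Mathlib

set_option autoImplicit false

open Set Cardinal

namespace Pool.Agent.H61.Clos

variable {Ω : Type} (Φ : List Ω → Set Ω)

/-- `E` is closed under the (countable-set-valued) finitary operation `Φ`. -/
def Clo (E : Set Ω) : Prop := ∀ l : List Ω, (∀ a ∈ l, a ∈ E) → Φ l ⊆ E

/-- The smallest `Φ`-closed set containing `S`. -/
def cl (S : Set Ω) : Set Ω := ⋂₀ {E | Clo Φ E ∧ S ⊆ E}

theorem subset_cl (S : Set Ω) : S ⊆ cl Φ S := subset_sInter fun _ hE => hE.2

theorem clo_cl (S : Set Ω) : Clo Φ (cl Φ S) := by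
  intro l hl
  refine subset_sInter fun E hE => ?_
  exact hE.1 l fun a ha => (mem_sInter.1 (hl a ha)) E hE

variable {Φ}

theorem cl_min {S E : Set Ω} (hE : Clo Φ E) (h : S ⊆ E) : cl Φ S ⊆ E :=
  sInter_subset_of_mem ⟨hE, h⟩

theorem cl_mono {S S' : Set Ω} (h : S ⊆ S') : cl Φ S ⊆ cl Φ S' :=
  cl_min (clo_cl Φ S') (h.trans (subset_cl Φ S'))

theorem clo_univ : Clo Φ (univ : Set Ω) := fun _ _ => subset_univ _

theorem clo_iUnion {ι : Type} [Nonempty ι] (E : ι → Set Ω) (hd : Directed (· ⊆ ·) E)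
    (hE : ∀ i, Clo Φ (E i)) : Clo Φ (⋃ i, E i) := by
  classical
  intro l hl
  have h1 : ((l.toFinset : Finset Ω) : Set Ω) ⊆ ⋃ i, E i := by
    intro a ha
    exact hl a (by simpa using ha)
  obtain ⟨i, hi⟩ := hd.exists_mem_subset_of_finset_subset_biUnion h1
  refine (hE i l fun a ha => hi (by simpa using ha)).trans (subset_iUnion E i)

/-- One step of the closure. -/
def step (Φ : List Ω → Set Ω) (E : Set Ω) : Set Ω :=
  E ∪ ⋃ l : List E, Φ (l.map Subtype.val)

theorem mk_step_le (hΦ : ∀ l, (Φ l).Countable) (E : Set Ω) (μ : Cardinal) (hμ : ℵ₀ ≤ μ)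
    (hE : #E ≤ μ) : #(step Φ E) ≤ μ := by
  refine (mk_union_le _ _).trans ?_
  refine add_le_of_le hμ hE ?_
  refine (mk_iUnion_le_sum_mk).trans ?_
  have h1 : ∀ l : List E, #(Φ (l.map Subtype.val)) ≤ μ := fun l =>
    ((le_aleph0_iff_set_countable).2 (hΦ _)).trans hμ
  refine (sum_le_sum _ (fun _ => μ) h1).trans ?_
  rw [sum_const]
  simp only [lift_id]
  refine mul_le_of_le hμ ?_ le_rfl
  exact (mk_list_le_max _).trans (max_le hμ hE)

theorem mk_cl_le (hΦ : ∀ l, (Φ l).Countable) (S : Set Ω) (μ : Cardinal) (hμ : ℵ₀ ≤ μ)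
    (hS : #S ≤ μ) : #(cl Φ S) ≤ μ := by
  let T : ℕ → Set Ω := fun n => (step Φ)^[n] S
  have hT : ∀ n, T (n + 1) = step Φ (T n) := fun n => Function.iterate_succ_apply' _ _ _
  have hmk : ∀ n, #(T n) ≤ μ := by
    intro n
    induction n with
    | zero => exact hS
    | succ n ih => rw [hT]; exact mk_step_le hΦ _ μ hμ ih
  have hmono : Monotone T := monotone_nat_of_le_succ fun n => by
    rw [hT]; exact subset_union_left
  have hclo : Clo Φ (⋃ n, T n) := by
    classical
    intro l hl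
    have h1 : ((l.toFinset : Finset Ω) : Set Ω) ⊆ ⋃ n, T n := by
      intro a ha
      exact hl a (by simpa using ha)
    obtain ⟨n, hn⟩ := (hmono.directed_le).exists_mem_subset_of_finset_subset_biUnion h1
    have hn' : ∀ a ∈ l, a ∈ T n := fun a ha => hn (by simpa using ha)
    obtain ⟨l', hl'⟩ : ∃ l' : List (T n), l'.map Subtype.val = l := by
      refine ⟨l.attach.map fun a => ⟨a.1, hn' a.1 a.2⟩, ?_⟩
      simp [List.map_map, Function.comp_def]
    have h2 : Φ l ⊆ T (n + 1) := by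
      rw [hT, ← hl']
      exact (subset_iUnion (fun l : List (T n) => Φ (l.map Subtype.val)) l').trans
        subset_union_right
    exact h2.trans (subset_iUnion T (n + 1))
  have hsub : cl Φ S ⊆ ⋃ n, T n := cl_min hclo (subset_iUnion T 0)
  refine (mk_le_mk_of_subset hsub).trans ?_
  refine (mk_iUnion_le_sum_mk).trans ?_
  refine (sum_le_sum _ (fun _ => μ) hmk).trans ?_
  rw [sum_const]
  simp only [lift_id]
  exact mul_le_of_le hμ (by simpa using hμ) le_rfl

end Pool.Agent.H61.Clos
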