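import Pool.Agent.H61.Clos

set_option autoImplicit false

open Set Cardinal Topology Filter

namespace Pool.Agent.H61.EG

open Pool.Agent.H61.Clos

section Rank

variable {X : Type} [TopologicalSpace X]

/-- The open sets of the Cantor-Bendixson hierarchy. -/
def lev (X : Type) [TopologicalSpace X] : Ordinal.{0} → Set X :=
  WellFounded.fix (C := fun _ => Set X) (wellFounded_lt (α := Ordinal.{0})) fun α ih =>
    {x | ∃ U : Set X, IsOpen U ∧ x ∈ U ∧ ∀ y ∈ U, y ≠ x → ∃ (β : Ordinal.{0}) (h : β < α), y ∈ ih β h}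

theorem mem_lev_iff (α : Ordinal.{0}) (x : X) : x ∈ lev X α ↔
    ∃ U : Set X, IsOpen U ∧ x ∈ U ∧ ∀ y ∈ U, y ≠ x → ∃ β : Ordinal.{0}, β < α ∧ y ∈ lev X β := by
  unfold lev
  rw [WellFounded.fix_eq]
  simp only [mem_ofPred_eq, exists_prop]

/-- A scattered space has a rank function. -/
theorem exists_rank (hsc : ∀ S : Set X, S.Nonempty → ∃ x ∈ S, ∃ U : Set X, IsOpen U ∧ U ∩ S = {x}) :
    ∃ ρ : X → Ordinal.{0}, ∀ x, ∃ U : Set X, IsOpen U ∧ x ∈ U ∧ ∀ y ∈ U, y ≠ x → ρ y < ρ x := by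
  have hall : ∀ x : X, ∃ α, x ∈ lev X α := by
    by_contra hcon
    push Not at hcon
    obtain ⟨x, hx, U, hU, hUS⟩ := hsc {x | ∀ α, x ∉ lev X α} hcon
    have hxU : x ∈ U := by
      have : x ∈ U ∩ {x | ∀ α, x ∉ lev X α} := by rw [hUS]; rfl
      exact this.1
    have hy : ∀ y : X, ∃ α, y ∈ U → y ≠ x → y ∈ lev X α := by
      intro y
      by_cases h : y ∈ U ∧ y ≠ x
      · have : y ∉ {x | ∀ α, x ∉ lev X α} := by
          intro hyS
          have : y ∈ U ∩ {x | ∀ α, x ∉ lev X α} := ⟨h.1, hyS⟩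
          rw [hUS] at this
          exact h.2 this
        simp only [mem_ofPred_eq, not_forall, not_not] at this
        obtain ⟨α, hα⟩ := this
        exact ⟨α, fun _ _ => hα⟩
      · exact ⟨0, fun h1 h2 => absurd ⟨h1, h2⟩ h⟩
    choose a ha using hy
    apply hx (Order.succ (⨆ y, a y))
    rw [mem_lev_iff]
    refine ⟨U, hU, hxU, fun y hyU hyx => ⟨a y, ?_, ha y hyU hyx⟩⟩
    exact Order.lt_succ_of_le (Ordinal.le_iSup a y)
  classical
  let ρ : X → Ordinal.{0} := fun x => WellFounded.min (wellFounded_lt (α := Ordinal.{0}))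
    {α | x ∈ lev X α} (hall x)
  have hρ : ∀ x, x ∈ lev X (ρ x) := fun x =>
    WellFounded.min_mem (wellFounded_lt (α := Ordinal.{0})) {α | x ∈ lev X α} (hall x)
  have hρ' : ∀ x α, x ∈ lev X α → ρ x ≤ α := fun x α h =>
    WellFounded.min_le (wellFounded_lt (α := Ordinal.{0})) (s := {α | x ∈ lev X α}) h
  refine ⟨ρ, fun x => ?_⟩
  obtain ⟨U, hU, hxU, h⟩ := (mem_lev_iff _ _).1 (hρ x)
  refine ⟨U, hU, hxU, fun y hy hyx => ?_⟩
  obtain ⟨β, hβ, hyβ⟩ := h y hy hyx
  exact (hρ' y β hyβ).trans_lt hβ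

end Rank

section Main

variable {X K : Type} [TopologicalSpace X] [TopologicalSpace K] [CompactSpace K]
variable (f : X → K → ℝ) (ρ : X → Ordinal.{0}) (V : X → Set X)

/-- The properties of a substructure that give a retraction. -/
structure Good (E : Set (X ⊕ K)) : Prop where
  g0 : ∀ x : X, ∃ z : X, Sum.inl z ∈ E ∧ x ∈ V z
  g1 : ∀ z : X, Sum.inl z ∈ E → ∀ k : K, Sum.inr k ∈ E → ∀ x ∈ V z, f x k ≠ f z k →
    ∃ z', Sum.inl z' ∈ E ∧ x ∈ V z' ∧ ρ z' < ρ z
  g3 : ∀ l : List X, (∀ x ∈ l, Sum.inl x ∈ E) → ∀ k : K, ∀ ε : ℝ, 0 < ε →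
    ∃ k', Sum.inr k' ∈ E ∧ ∀ x ∈ l, |f x k' - f x k| < ε

variable {f ρ V}

theorem Good.exists_retraction (hf : Topology.IsEmbedding f) (hfc : ∀ x, Continuous (f x))
    (hV : ∀ x, ∀ y ∈ V x, y ≠ x → ρ y < ρ x)
    {E : Set (X ⊕ K)} (hE : Good f ρ V E) :
    ∃ r : X → X, Continuous r ∧ (∀ x, Sum.inl (r x) ∈ E) ∧ (∀ x, Sum.inl x ∈ E → r x = x) ∧
      (∀ x, x ≠ r x → ρ x < ρ (r x)) ∧ (∀ x k, Sum.inr k ∈ E → f (r x) k = f x k) ∧
      (∀ x z, Sum.inl z ∈ E → (∀ k, Sum.inr k ∈ E → f z k = f x k) → z = r x) := by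
  -- separation of points of `E`
  have hsep : ∀ z z' : X, Sum.inl z ∈ E → Sum.inl z' ∈ E →
      (∀ k, Sum.inr k ∈ E → f z k = f z' k) → z = z' := by
    intro z z' hz hz' h
    by_contra hne
    have hne2 : f z ≠ f z' := fun h' => hne (hf.injective h')
    obtain ⟨k, hk⟩ := Function.ne_iff.1 hne2
    have hpos : 0 < |f z k - f z' k| / 2 := by
      have := abs_pos.2 (sub_ne_zero.2 hk)
      linarith
    obtain ⟨k', hk'E, hk'⟩ := hE.g3 [z, z'] (by
      intro x hx
      simp only [List.mem_cons, List.not_mem_nil, or_false] at hx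
      rcases hx with rfl | rfl
      · exact hz
      · exact hz') k _ hpos
    have h1 := hk' z (by simp)
    have h2 := hk' z' (by simp)
    have h3 := h k' hk'E
    rw [h3] at h1
    have h4 : |f z k - f z' k| ≤ |f z' k' - f z k| + |f z' k' - f z' k| := by
      have : f z k - f z' k = -(f z' k' - f z k) + (f z' k' - f z' k) := by ring
      rw [this]
      refine (abs_add_le _ _).trans ?_
      rw [abs_neg]
    linarith
  -- existence
  have hex : ∀ x : X, ∃ z : X, Sum.inl z ∈ E ∧ x ∈ V z ∧ ∀ k, Sum.inr k ∈ E → f z k = f x k := by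
    intro x
    have hne : (ρ '' {z : X | Sum.inl z ∈ E ∧ x ∈ V z}).Nonempty := by
      obtain ⟨z, hz⟩ := hE.g0 x
      exact ⟨ρ z, z, hz, rfl⟩
    obtain ⟨z, hz, hzρ⟩ := WellFounded.min_mem (wellFounded_lt (α := Ordinal.{0})) _ hne
    refine ⟨z, hz.1, hz.2, fun k hk => ?_⟩
    by_contra hcon
    obtain ⟨z', hz'E, hz'V, hz'ρ⟩ := hE.g1 z hz.1 k hk x hz.2 (fun h => hcon h.symm)
    have := WellFounded.min_le (wellFounded_lt (α := Ordinal.{0}))
      (s := ρ '' {z : X | Sum.inl z ∈ E ∧ x ∈ V z}) ⟨z', ⟨hz'E, hz'V⟩, rfl⟩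
    rw [← hzρ] at this
    exact absurd hz'ρ (not_lt.2 this)
  choose r hrE hrV hrf using hex
  refine ⟨r, ?_, hrE, ?_, ?_, fun x k hk => hrf x k hk, ?_⟩
  · rw [hf.continuous_iff]
    refine continuous_pi fun k => ?_
    -- find `k'` in the closure with the same values on `E`
    obtain ⟨k', hk'c, hk'⟩ : ∃ k' ∈ closure {κ : K | Sum.inr κ ∈ E},
        ∀ a : X, Sum.inl a ∈ E → f a k' = f a k := by
      have hne : (closure {κ : K | Sum.inr κ ∈ E} ∩
          ⋂ p : {a : X // Sum.inl a ∈ E} × ℕ,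
            {κ : K | |f p.1.1 κ - f p.1.1 k| ≤ 1 / ((p.2 : ℝ) + 1)}).Nonempty := by
        refine IsCompact.inter_iInter_nonempty isClosed_closure.isCompact _ (fun p => ?_) ?_
        · exact isClosed_le (((hfc p.1.1).sub continuous_const).abs) continuous_const
        · intro u
          classical
          let N : ℕ := u.sup fun p => p.2
          obtain ⟨κ, hκE, hκ⟩ := hE.g3 (u.toList.map fun p => p.1.1) (by
            intro x hx
            simp only [List.mem_map, Finset.mem_toList] at hx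
            obtain ⟨p, _, rfl⟩ := hx
            exact p.1.2) k (1 / ((N : ℝ) + 1)) (by positivity)
          refine ⟨κ, subset_closure hκE, ?_⟩
          simp only [mem_iInter]
          intro p hp
          have h1 := hκ p.1.1 (by
            simp only [List.mem_map, Finset.mem_toList]
            exact ⟨p, hp, rfl⟩)
          have h2 : (p.2 : ℝ) ≤ N := by
            exact_mod_cast Finset.le_sup (f := fun p : {a : X // Sum.inl a ∈ E} × ℕ => p.2) hp
          refine h1.le.trans ?_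
          apply one_div_le_one_div_of_le
          · positivity
          · linarith
      obtain ⟨κ, hκc, hκ⟩ := hne
      refine ⟨κ, hκc, fun a ha => ?_⟩
      by_contra hcon
      have hpos : 0 < |f a κ - f a k| := abs_pos.2 (sub_ne_zero.2 hcon)
      obtain ⟨n, hn⟩ := exists_nat_one_div_lt hpos
      have := mem_iInter.1 hκ (⟨a, ha⟩, n)
      exact absurd hn (not_lt.2 this)
    have h1 : (fun x => f (r x) k) = fun x => f x k' := by
      funext x
      rw [← hk' (r x) (hrE x)]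
      have hcl : IsClosed {κ : K | f (r x) κ = f x κ} := isClosed_eq (hfc _) (hfc _)
      have hsub : closure {κ : K | Sum.inr κ ∈ E} ⊆ {κ : K | f (r x) κ = f x κ} :=
        closure_minimal (fun κ hκ => hrf x κ hκ) hcl
      exact hsub hk'c
    have h2 : (fun x => (f ∘ r) x k) = fun x => f x k' := h1
    rw [h2]
    exact (continuous_apply k').comp hf.continuous
  · intro x hx
    exact hsep _ _ (hrE x) hx fun k hk => hrf x k hk
  · intro x hx
    exact hV (r x) x (hrV x) hx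
  · intro x z hz h
    exact hsep _ _ hz (hrE x) fun k hk => (h k hk).trans (hrf x k hk).symm

/-- The main induction. -/
theorem sigma_discrete_aux [T2Space X] (hf : Topology.IsEmbedding f)
    (hfc : ∀ x, Continuous (f x)) (hV : ∀ x, ∀ y ∈ V x, y ≠ x → ρ y < ρ x)
    (Φ : List (X ⊕ K) → Set (X ⊕ K)) (hΦc : ∀ l, (Φ l).Countable)
    (hΦ : ∀ E, Clo Φ E → Good f ρ V E) (κ : Cardinal.{0}) :
    ∀ E : Set (X ⊕ K), #E = κ → Clo Φ E → ∃ c : X → ℕ, ∀ x, Sum.inl x ∈ E →
      ∃ O : Set X, IsOpen O ∧ x ∈ O ∧ ∀ y ∈ O, Sum.inl y ∈ E → c y = c x → y = x := by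
  induction κ using WellFoundedLT.induction with
  | ind κ ih =>
  intro E hEκ hE
  by_cases hκ : κ ≤ ℵ₀
  · -- countable case
    have hEc : E.Countable := by
      rw [← le_aleph0_iff_set_countable, hEκ]; exact hκ
    have hXc : {x : X | (Sum.inl x : X ⊕ K) ∈ E}.Countable :=
      hEc.preimage Sum.inl_injective
    classical
    obtain ⟨g, hg⟩ := Set.countable_iff_exists_injOn.1 hXc
    refine ⟨g, fun x hx => ⟨univ, isOpen_univ, mem_univ _, fun y _ hy hc => hg hy hx hc⟩⟩
  · -- uncountable case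
    push Not at hκ
    let I : Type := κ.ord.ToType
    have hI : #I = #E := by rw [hEκ]; exact mk_ord_toType κ
    obtain ⟨e⟩ : Nonempty (I ≃ E) := Cardinal.eq.1 hI
    let S : I → Set (X ⊕ K) := fun ξ => (fun i => (e i : X ⊕ K)) '' Iic ξ
    let F : I → Set (X ⊕ K) := fun ξ => cl Φ (S ξ)
    have hFclo : ∀ ξ, Clo Φ (F ξ) := fun ξ => clo_cl Φ _
    have hFmono : Monotone F := fun ξ η h => cl_mono (image_mono (Iic_subset_Iic.2 h))
    have hFE : ∀ ξ, F ξ ⊆ E := fun ξ => cl_min hE (by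
      rintro _ ⟨i, _, rfl⟩
      exact (e i).2)
    have hFcard : ∀ ξ, #(F ξ) < κ := by
      intro ξ
      have h1 : #(Iio ξ) < κ := by
        have := Cardinal.mk_Iio_lt ξ (by simp [I])
        simpa [I] using this
      have h2 : #(Iic ξ) < κ := by
        have h3 : (Iic ξ : Set I) = insert ξ (Iio ξ) := by
          ext x; simp [le_iff_eq_or_lt]
        rw [h3]
        refine (mk_insert_le).trans_lt ?_
        exact add_lt_of_lt hκ.le h1 (one_lt_aleph0.trans hκ)
      have h4 : #(S ξ) < κ := mk_image_le.trans_lt h2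
      exact (mk_cl_le hΦc (S ξ) (max #(S ξ) ℵ₀) (le_max_right _ _) (le_max_left _ _)).trans_lt
        (max_lt h4 hκ)
    have hEF : ∀ w ∈ E, ∃ ξ, w ∈ F ξ := by
      intro w hw
      refine ⟨e.symm ⟨w, hw⟩, subset_cl Φ _ ⟨e.symm ⟨w, hw⟩, mem_Iic.2 le_rfl, by simp⟩⟩
    -- codes from the induction hypothesis
    have hcode : ∀ ξ, ∃ c : X → ℕ, ∀ x, ∃ O : Set X, Sum.inl x ∈ F ξ →
        IsOpen O ∧ x ∈ O ∧ ∀ y ∈ O, Sum.inl y ∈ F ξ → c y = c x → y = x := by
      intro ξ
      obtain ⟨c, hc⟩ := ih _ (hFcard ξ) (F ξ) rfl (hFclo ξ)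
      refine ⟨c, fun x => ?_⟩
      by_cases hx : Sum.inl x ∈ F ξ
      · obtain ⟨O, hO⟩ := hc x hx
        exact ⟨O, fun _ => hO⟩
      · exact ⟨univ, fun h => absurd h hx⟩
    choose c O hO using hcode
    -- retractions
    choose r hrc hrE hrid hrρ hrf hruniq using fun ξ =>
      (hΦ (F ξ) (hFclo ξ)).exists_retraction hf hfc hV
    have hcomp : ∀ ξ η, ξ ≤ η → ∀ x, r ξ (r η x) = r ξ x := by
      intro ξ η h x
      symm
      refine hruniq ξ (r η x) (r ξ x) (hrE ξ x) fun k hk => ?_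
      rw [hrf ξ x k hk, hrf η x k (hFmono h hk)]
    -- strict unions
    let G : I → Set X := fun ξ => {x | ∃ η, η < ξ ∧ Sum.inl x ∈ F η}
    have hGcl : ∀ ξ, IsClosed (G ξ) := by
      intro ξ
      by_cases hne : Nonempty {η : I // η < ξ}
      · have hclo : Clo Φ (⋃ η : {η : I // η < ξ}, F η.1) := by
          refine clo_iUnion _ ?_ fun η => hFclo _
          intro η η'
          rcases le_total η.1 η'.1 with h | h
          · exact ⟨η', hFmono h, subset_rfl⟩
          · exact ⟨η, subset_rfl, hFmono h⟩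
        obtain ⟨r', hr'c, hr'E, hr'id, -, -, -⟩ := (hΦ _ hclo).exists_retraction hf hfc hV
        have : G ξ = {x | r' x = x} := by
          ext x
          constructor
          · rintro ⟨η, hη, hx⟩
            exact hr'id x (mem_iUnion.2 ⟨⟨η, hη⟩, hx⟩)
          · intro hx
            have h1 := hr'E x
            have hx' : r' x = x := hx
            rw [hx'] at h1
            obtain ⟨η, hη⟩ := mem_iUnion.1 h1
            exact ⟨η.1, η.2, hη⟩
        rw [this]
        exact isClosed_eq hr'c continuous_id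
      · have : G ξ = ∅ := by
          ext x
          simp only [mem_empty_iff_false, iff_false]
          rintro ⟨η, hη, _⟩
          exact hne ⟨⟨η, hη⟩⟩
        rw [this]
        exact isClosed_empty
    -- jump points
    let J : X → Set I := fun x => {ξ | r ξ x ∉ G ξ}
    have hJopen : ∀ ξ, IsOpen {y | ξ ∈ J y} := fun ξ =>
      (hGcl ξ).isOpen_compl.preimage (hrc ξ)
    have hdec : ∀ x ξ η, ξ ∈ J x → η ∈ J x → ξ < η → ρ (r η x) < ρ (r ξ x) := by
      intro x ξ η _ hη hlt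
      have h1 : r ξ (r η x) = r ξ x := hcomp ξ η hlt.le x
      have hne : r η x ≠ r ξ (r η x) := by
        intro h
        apply hη
        exact ⟨ξ, hlt, by rw [h, h1]; exact hrE ξ x⟩
      have := hrρ ξ (r η x) hne
      rwa [h1] at this
    have hJfin : ∀ x, (J x).Finite := by
      intro x
      have hgt : WellFoundedGT (J x) := by
        refine ⟨?_⟩
        have hmeas : ∀ p q : J x, p.1 < q.1 → ρ (r q.1 x) < ρ (r p.1 x) := fun p q h =>
          hdec x p.1 q.1 p.2 q.2 h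
        exact Subrelation.wf (h₁ := fun {p q} (h : p > q) => hmeas q p h)
          (InvImage.wf (fun p : J x => ρ (r p.1 x)) (wellFounded_lt (α := Ordinal.{0})))
      have := Finite.of_wellFoundedLT_wellFoundedGT (J x)
      exact Set.toFinite _
    -- first index
    have hfirst : ∀ x, Sum.inl x ∈ E → ∃ ξ, Sum.inl x ∈ F ξ ∧ ξ ∈ J x ∧ ∀ η ∈ J x, η ≤ ξ := by
      intro x hx
      have hne : {ξ | (Sum.inl x : X ⊕ K) ∈ F ξ}.Nonempty := hEF _ hx
      let ξ := WellFounded.min (wellFounded_lt (α := I)) _ hne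
      have hξ : (Sum.inl x : X ⊕ K) ∈ F ξ :=
        WellFounded.min_mem (wellFounded_lt (α := I)) _ hne
      have hmin : ∀ η, (Sum.inl x : X ⊕ K) ∈ F η → ξ ≤ η := fun η hη =>
        WellFounded.min_le (wellFounded_lt (α := I)) (s := {ξ | (Sum.inl x : X ⊕ K) ∈ F ξ}) hη
      have hfix : ∀ η, ξ ≤ η → r η x = x := fun η h => hrid η x (hFmono h hξ)
      refine ⟨ξ, hξ, ?_, ?_⟩
      · rintro ⟨η, hη, h⟩
        rw [hfix ξ le_rfl] at h
        exact absurd hη (not_lt.2 (hmin η h))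
      · intro η hη
        by_contra hlt
        push Not at hlt
        apply hη
        refine ⟨ξ, hlt, ?_⟩
        rw [hfix η hlt.le]
        exact hξ
    have hfirst' : ∀ x, ∃ ξ, Sum.inl x ∈ E → Sum.inl x ∈ F ξ ∧ ξ ∈ J x ∧ ∀ η ∈ J x, η ≤ ξ := by
      intro x
      by_cases hx : Sum.inl x ∈ E
      · obtain ⟨ξ, h⟩ := hfirst x hx
        exact ⟨ξ, fun _ => h⟩
      · have : Nonempty I := by
          rw [← mk_ne_zero_iff, hI, hEκ]
          exact (aleph0_pos.trans hκ).ne'
        exact ⟨Classical.arbitrary I, fun h => absurd h hx⟩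
    choose m hm using hfirst'
    refine ⟨fun x => Nat.pair (J x).ncard (c (m x) x), fun x hx => ?_⟩
    obtain ⟨hm1, hm2, hm3⟩ := hm x hx
    obtain ⟨hO1, hO2, hO3⟩ := hO (m x) x hm1
    refine ⟨(⋂ ξ ∈ J x, {y | ξ ∈ J y}) ∩ O (m x) x, ?_, ?_, ?_⟩
    · exact ((hJfin x).isOpen_biInter fun ξ _ => hJopen ξ).inter hO1
    · refine ⟨?_, hO2⟩
      simp only [mem_iInter]
      exact fun ξ hξ => hξ
    · rintro y ⟨hy1, hy2⟩ hyE hc
      have hsub : J x ⊆ J y := by
        intro ξ hξ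
        simp only [mem_iInter] at hy1
        exact hy1 ξ hξ
      have hc' := Nat.pair_eq_pair.1 hc
      have hJeq : J x = J y :=
        Set.eq_of_subset_of_ncard_le hsub hc'.1.le (hJfin y)
      obtain ⟨hn1, hn2, hn3⟩ := hm y hyE
      have hmeq : m y = m x := le_antisymm (hm3 _ (hJeq ▸ hn2)) (hn3 _ (hJeq ▸ hm2))
      have hc2 : c (m x) y = c (m x) x := by
        have := hc'.2
        rwa [hmeq] at this
      exact hO3 y hy2 (hmeq ▸ hn1) hc2

end Main

end Pool.Agent.H61.EG
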