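import Pool.Agent.H61.EG

set_option autoImplicit false

open Set Cardinal Topology Filter

namespace Pool.Agent.H61.EG

open Pool.Agent.H61.Clos

variable {X K : Type} [TopologicalSpace X] [TopologicalSpace K] [CompactSpace K]

omit [TopologicalSpace X] [TopologicalSpace K] [CompactSpace K] in
/-- For finitely many points there is a countable set of `k` approximating all value tuples. -/
theorem exists_countable_approx (f : X → K → ℝ) (l : List X) :
    ∃ D : Set K, D.Countable ∧ ∀ k : K, ∀ ε : ℝ, 0 < ε → ∃ k' ∈ D, ∀ x ∈ l, |f x k' - f x k| < ε := by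
  classical
  let T : Type := {x : X // x ∈ l.toFinset}
  let g : K → (T → ℝ) := fun k x => f x.1 k
  obtain ⟨s, hsc, hsd⟩ := TopologicalSpace.exists_countable_dense (Set.range g)
  have hpre : ∀ p : Set.range g, ∃ k : K, g k = p.1 := fun p => p.2
  choose pre hpre using hpre
  refine ⟨pre '' s, hsc.image pre, fun k ε hε => ?_⟩
  let p : Set.range g := ⟨g k, k, rfl⟩
  have hopen : IsOpen {q : Set.range g | dist q p < ε} := by
    exact Metric.isOpen_ball
  obtain ⟨q, hq, hqs⟩ := hsd.inter_open_nonempty _ hopen ⟨p, by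
    simpa using hε⟩
  refine ⟨pre q, ⟨q, hqs, rfl⟩, fun x hx => ?_⟩
  have h1 : dist (q.1) (g k) < ε := hq
  rw [← hpre q] at h1
  have h2 := (dist_pi_lt_iff hε).1 h1 ⟨x, by simpa using hx⟩
  simpa [g, Real.dist_eq] using h2

theorem sigma_discrete (f : X → K → ℝ) (hf : Topology.IsEmbedding f)
    (hfc : ∀ x, Continuous (f x)) [LindelofSpace X]
    (hsc : ∀ S : Set X, S.Nonempty → ∃ x ∈ S, ∃ U : Set X, IsOpen U ∧ U ∩ S = {x}) :
    ∃ D : ℕ → Set X, (⋃ n, D n) = Set.univ ∧ ∀ n, DiscreteTopology (D n) := by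
  classical
  have hT2 : T2Space X := hf.t2Space
  have hreg : RegularSpace X := hf.isInducing.regularSpace
  obtain ⟨ρ, hρ⟩ := exists_rank hsc
  choose U hUo hxU hUρ using hρ
  -- shrink the neighbourhoods
  have hshrink : ∀ x : X, ∃ V : Set X, IsOpen V ∧ x ∈ V ∧ closure V ⊆ U x := by
    intro x
    obtain ⟨V, hV1, hV2, hV3⟩ := exists_mem_nhds_isClosed_subset ((hUo x).mem_nhds (hxU x))
    refine ⟨interior V, isOpen_interior, mem_interior_iff_mem_nhds.2 hV1, ?_⟩
    exact (closure_minimal interior_subset hV2).trans hV3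
  choose V hVo hxV hVU using hshrink
  have hV : ∀ x, ∀ y ∈ V x, y ≠ x → ρ y < ρ x := fun x y hy hne =>
    hUρ x y (hVU x (subset_closure hy)) hne
  -- a countable subcover of the whole space
  obtain ⟨C₀, hC₀c, -, hC₀⟩ := (isLindelof_univ (X := X)).elim_nhds_subcover V
    fun x _ => (hVo x).mem_nhds (hxV x)
  -- countable covers of the closed sets avoiding `z`
  have ht : ∀ (z : X) (k : K) (n : ℕ), ∃ t : Set X, t.Countable ∧
      (∀ x ∈ t, x ∈ closure (V z) ∩ {x | 1 / ((n : ℝ) + 1) ≤ |f x k - f z k|}) ∧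
      closure (V z) ∩ {x | 1 / ((n : ℝ) + 1) ≤ |f x k - f z k|} ⊆ ⋃ x ∈ t, V x := by
    intro z k n
    have hcl : IsClosed (closure (V z) ∩ {x | 1 / ((n : ℝ) + 1) ≤ |f x k - f z k|}) := by
      refine isClosed_closure.inter (isClosed_le continuous_const ?_)
      have : Continuous fun x => f x k := (continuous_apply k).comp hf.continuous
      exact (this.sub continuous_const).abs
    exact hcl.isLindelof.elim_nhds_subcover V fun x _ => (hVo x).mem_nhds (hxV x)
  choose t htc hts htcov using ht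
  choose D hDc hD using exists_countable_approx f
  let Φ : List (X ⊕ K) → Set (X ⊕ K) := fun l =>
    (Sum.inl '' C₀) ∪ (⋃ z ∈ {z : X | Sum.inl z ∈ l}, ⋃ k ∈ {k : K | Sum.inr k ∈ l},
      ⋃ n : ℕ, Sum.inl '' t z k n) ∪ Sum.inr '' D (l.filterMap Sum.getLeft?)
  have hΦc : ∀ l, (Φ l).Countable := by
    intro l
    have hl : {w : X ⊕ K | w ∈ l}.Countable := (List.finite_toSet l).countable
    have h1 : {z : X | (Sum.inl z : X ⊕ K) ∈ l}.Countable := hl.preimage Sum.inl_injective
    have h2 : {k : K | (Sum.inr k : X ⊕ K) ∈ l}.Countable := hl.preimage Sum.inr_injective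
    refine ((hC₀c.image _).union ?_).union ((hDc _).image _)
    exact h1.biUnion fun z _ => h2.biUnion fun k _ => countable_iUnion fun n => (htc z k n).image _
  have hΦ : ∀ E, Clo Φ E → Good f ρ V E := by
    intro E hE
    refine ⟨?_, ?_, ?_⟩
    · intro x
      have h1 : x ∈ ⋃ z ∈ C₀, V z := hC₀ (mem_univ x)
      simp only [mem_iUnion] at h1
      obtain ⟨z, hz, hxz⟩ := h1
      refine ⟨z, ?_, hxz⟩
      exact hE [] (by simp) (Or.inl (Or.inl ⟨z, hz, rfl⟩))
    · intro z hz k hk x hx hne
      have hpos : 0 < |f x k - f z k| := abs_pos.2 (sub_ne_zero.2 hne)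
      obtain ⟨n, hn⟩ := exists_nat_one_div_lt hpos
      have h1 : x ∈ ⋃ z' ∈ t z k n, V z' :=
        htcov z k n ⟨subset_closure hx, hn.le⟩
      simp only [mem_iUnion] at h1
      obtain ⟨z', hz', hxz'⟩ := h1
      refine ⟨z', ?_, hxz', ?_⟩
      · have hl : ∀ a ∈ ([Sum.inl z, Sum.inr k] : List (X ⊕ K)), a ∈ E := by
          intro a ha
          simp only [List.mem_cons, List.not_mem_nil, or_false] at ha
          rcases ha with rfl | rfl
          · exact hz
          · exact hk
        refine hE _ hl (Or.inl (Or.inr ?_))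
        simp only [mem_iUnion]
        refine ⟨z, ?_, k, ?_, n, z', hz', rfl⟩ <;> simp
      · have h2 := hts z k n z' hz'
        refine hUρ z z' (hVU z h2.1) ?_
        rintro rfl
        have h3 : 1 / ((n : ℝ) + 1) ≤ |f z' k - f z' k| := h2.2
        simp only [sub_self, abs_zero] at h3
        have : (0 : ℝ) < 1 / ((n : ℝ) + 1) := by positivity
        linarith
    · intro l hl k ε hε
      obtain ⟨k', hk', h⟩ := hD l k ε hε
      refine ⟨k', ?_, h⟩
      have hl' : ∀ a ∈ (l.map Sum.inl : List (X ⊕ K)), a ∈ E := by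
        intro a ha
        simp only [List.mem_map] at ha
        obtain ⟨x, hx, rfl⟩ := ha
        exact hl x hx
      refine hE _ hl' (Or.inr ⟨k', ?_, rfl⟩)
      have h4 : (l.map Sum.inl : List (X ⊕ K)).filterMap Sum.getLeft? = l := by
        rw [List.filterMap_map]
        rw [show (Sum.getLeft? ∘ (Sum.inl : X → X ⊕ K)) = (some : X → Option X) from rfl]
        simp
      rw [h4]
      exact hk'
  obtain ⟨c, hc⟩ := sigma_discrete_aux hf hfc hV Φ hΦc hΦ _ univ rfl clo_univ
  refine ⟨fun n => {x | c x = n}, ?_, fun n => ?_⟩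
  · ext x
    simp
  · rw [discreteTopology_subtype_iff']
    intro x hx
    obtain ⟨O, hO1, hO2, hO3⟩ := hc x (mem_univ _)
    refine ⟨O, hO1, ?_⟩
    ext y
    constructor
    · rintro ⟨hy1, hy2⟩
      have hx' : c x = n := hx
      have hy' : c y = n := hy2
      exact hO3 y hy1 (mem_univ _) (hy'.trans hx'.symm)
    · intro hy
      have : y = x := hy
      subst this
      exact ⟨hO2, hx⟩

end Pool.Agent.H61.EG
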