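import Mathlib

set_option autoImplicit false

open Set Topology Filter
open scoped Cardinal

namespace Pool.Agent.H61.Sp

/-- A continuous map into a compact subset of `c₀(Γ)` with the pointwise topology. -/
structure CM (X : Type) [TopologicalSpace X] where
  Γ : Type
  K : Set (Γ → ℝ)
  f : X → Γ → ℝ
  hK : IsCompact K
  h0 : ∀ y ∈ K, ∀ ε : ℝ, 0 < ε → Set.Finite {γ : Γ | ε ≤ |y γ|}
  hf : Continuous f
  hfK : ∀ x, f x ∈ K

/-- Every subset is cut out by a map into a compact subset of some `c₀(Γ)`. -/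
def Splt (X : Type) [TopologicalSpace X] : Prop :=
  ∀ A : Set X, ∃ F : CM X, ∀ x y, F.f x = F.f y → (x ∈ A ↔ y ∈ A)

variable {X Y : Type} [TopologicalSpace X] [TopologicalSpace Y]

theorem CM.fin (F : CM X) (x : X) {ε : ℝ} (h : 0 < ε) : {γ | ε ≤ |F.f x γ|}.Finite :=
  F.h0 _ (F.hfK x) ε h

theorem CM.contCoord (F : CM X) (γ : F.Γ) : Continuous fun x => F.f x γ :=
  (continuous_apply γ).comp F.hf

theorem CM.finSub (F : CM X) (x y : X) {ε : ℝ} (h : 0 < ε) :
    {γ | ε ≤ |F.f x γ - F.f y γ|}.Finite := by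
  refine ((F.fin x (half_pos h)).union (F.fin y (half_pos h))).subset ?_
  intro γ hγ
  rw [mem_ofPred_eq] at hγ
  by_contra hcon
  simp only [mem_union, mem_ofPred_eq, not_or, not_le] at hcon
  have := abs_sub (F.f x γ) (F.f y γ)
  linarith [hcon.1, hcon.2]

theorem CM.countSupp (F : CM X) (x : X) : {γ | F.f x γ ≠ 0}.Countable := by
  have h1 : {γ | F.f x γ ≠ 0} ⊆ ⋃ n : ℕ, {γ | 1 / ((n : ℝ) + 1) ≤ |F.f x γ|} := by
    intro γ hγ
    have h2 : 0 < |F.f x γ| := abs_pos.2 hγ
    obtain ⟨n, hn⟩ := exists_nat_one_div_lt h2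
    exact mem_iUnion.2 ⟨n, hn.le⟩
  refine Countable.mono h1 ?_
  exact countable_iUnion fun n => (F.fin x Nat.one_div_pos_of_nat).countable

/-- Restriction (pull back) of a map along a continuous map. -/
def CM.pull (F : CM X) (g : Y → X) (hg : Continuous g) : CM Y where
  Γ := F.Γ
  K := F.K
  f := fun y => F.f (g y)
  hK := F.hK
  h0 := F.h0
  hf := F.hf.comp hg
  hfK := fun y => F.hfK (g y)

theorem Splt.pull (h : Splt X) (g : Y → X) (hg : Continuous g) (hi : Function.Injective g) :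
    Splt Y := by
  intro A
  obtain ⟨F, hF⟩ := h (g '' A)
  refine ⟨F.pull g hg, fun x y hxy => ?_⟩
  have h1 := hF (g x) (g y) hxy
  rwa [hi.mem_set_image, hi.mem_set_image] at h1

/-- A bounded continuous injective map of the line. -/
noncomputable def sq (t : ℝ) : ℝ := t / (1 + |t|)

theorem sq_cont : Continuous sq := by
  unfold sq
  refine continuous_id.div (by fun_prop) ?_
  intro t
  positivity

theorem abs_sq_le_one (t : ℝ) : |sq t| ≤ 1 := by
  unfold sq
  have h : 0 < 1 + |t| := by positivity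
  rw [abs_div, abs_of_pos h, div_le_one h]
  linarith

theorem abs_sq_le (t : ℝ) : |sq t| ≤ |t| := by
  unfold sq
  have h : 0 < 1 + |t| := by positivity
  rw [abs_div, abs_of_pos h]
  exact div_le_self (abs_nonneg t) (by linarith [abs_nonneg t])

theorem sq_inj : Function.Injective sq := by
  have key : ∀ t : ℝ, sq t / (1 - |sq t|) = t := by
    intro t
    have h : 0 < 1 + |t| := by positivity
    have h1 : 1 - |sq t| = 1 / (1 + |t|) := by
      unfold sq
      rw [abs_div, abs_of_pos h]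
      field_simp
      ring
    rw [h1]
    unfold sq
    field_simp
  intro s t hst
  rw [← key s, ← key t, hst]

/-- The countable direct sum. -/
noncomputable def CM.sum (F : ℕ → CM X) : CM X where
  Γ := Σ n, (F n).Γ
  K := (fun (z : ∀ n, (F n).Γ → ℝ) (p : Σ n, (F n).Γ) => (1 / 2 : ℝ) ^ p.1 * sq (z p.1 p.2)) ''
    (Set.pi univ fun n => (F n).K)
  f := fun x p => (1 / 2 : ℝ) ^ p.1 * sq ((F p.1).f x p.2)
  hK := by
    refine (isCompact_univ_pi fun n => (F n).hK).image ?_
    refine continuous_pi fun p => ?_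
    refine continuous_const.mul (sq_cont.comp ?_)
    exact (continuous_apply p.2).comp (continuous_apply p.1)
  h0 := by
    rintro y ⟨z, hz, rfl⟩ ε hε
    obtain ⟨N, hN⟩ := exists_pow_lt_of_lt_one hε (by norm_num : (1 / 2 : ℝ) < 1)
    have h1 : (⋃ n ∈ Finset.range N, (Sigma.mk n) '' {γ : (F n).Γ | ε ≤ |z n γ|}).Finite := by
      refine (Finset.range N).finite_toSet.biUnion fun n _ => ?_
      exact ((F n).h0 _ (hz n (mem_univ n)) ε hε).image _
    refine h1.subset ?_
    rintro ⟨n, γ⟩ hγ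
    rw [mem_ofPred_eq] at hγ
    dsimp only at hγ
    rw [abs_mul, abs_of_pos (by positivity : (0 : ℝ) < (1 / 2) ^ n)] at hγ
    simp only [mem_iUnion, Finset.mem_range, mem_image, mem_ofPred_eq]
    have hp : (1 / 2 : ℝ) ^ n ≤ 1 := pow_le_one₀ (by norm_num) (by norm_num)
    refine ⟨n, ?_, γ, ?_, rfl⟩
    · by_contra hn
      push Not at hn
      have h2 : (1 / 2 : ℝ) ^ n ≤ (1 / 2) ^ N := pow_le_pow_of_le_one (by norm_num) (by norm_num) hn
      have h3 : (1 / 2 : ℝ) ^ n * |sq (z n γ)| ≤ (1 / 2) ^ n * 1 :=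
        mul_le_mul_of_nonneg_left (abs_sq_le_one _) (by positivity)
      linarith
    · have h3 : (1 / 2 : ℝ) ^ n * |sq (z n γ)| ≤ 1 * |z n γ| :=
        mul_le_mul hp (abs_sq_le _) (abs_nonneg _) zero_le_one
      linarith
  hf := by
    refine continuous_pi fun p => ?_
    exact continuous_const.mul (sq_cont.comp ((F p.1).contCoord p.2))
  hfK := fun x => ⟨fun n => (F n).f x, fun n _ => (F n).hfK x, rfl⟩

theorem CM.sum_eq {F : ℕ → CM X} {x y : X} (h : (CM.sum F).f x = (CM.sum F).f y) (n : ℕ) :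
    (F n).f x = (F n).f y := by
  funext γ
  have h1 : (1 / 2 : ℝ) ^ n * sq ((F n).f x γ) = (1 / 2 : ℝ) ^ n * sq ((F n).f y γ) :=
    congrFun h ⟨n, γ⟩
  exact sq_inj (mul_left_cancel₀ (by positivity) h1)

/-- The sum of two maps. -/
noncomputable def CM.add (F G : CM X) : CM X := CM.sum fun n => Nat.casesOn n F fun _ => G

theorem CM.add_eq {F G : CM X} {x y : X} (h : (F.add G).f x = (F.add G).f y) :
    F.f x = F.f y ∧ G.f x = G.f y :=
  ⟨CM.sum_eq h 0, CM.sum_eq h 1⟩

/-- Countably many subsets can be cut out simultaneously. -/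
theorem Splt.seq (h : Splt X) (A : ℕ → Set X) :
    ∃ F : CM X, ∀ x y, F.f x = F.f y → ∀ n, (x ∈ A n ↔ y ∈ A n) := by
  choose F hF using fun n => h (A n)
  exact ⟨CM.sum F, fun x y hxy n => hF n x y (CM.sum_eq hxy n)⟩

/-- Colourings by subsets of `ℕ` can be respected. -/
theorem Splt.color (h : Splt X) (c : X → ℕ → Prop) :
    ∃ F : CM X, ∀ x y, F.f x = F.f y → c x = c y := by
  obtain ⟨F, hF⟩ := h.seq fun n => {x | c x n}
  refine ⟨F, fun x y hxy => ?_⟩
  funext n
  exact propext (hF x y hxy n)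

/-- A type of size at most the continuum injects into `ℕ → Prop`. -/
theorem exists_inj_of_le {α : Type} (h : #α ≤ 𝔠) : ∃ c : α → ℕ → Prop, Function.Injective c := by
  have h1 : #(ℕ → Prop) = 𝔠 := by simp
  rw [← h1] at h
  obtain ⟨e⟩ := h
  exact ⟨e, e.injective⟩

/-- For spaces of size at most the continuum there is an injective map. -/
theorem Splt.inj_of_le (h : Splt X) (hX : #X ≤ 𝔠) : ∃ F : CM X, Function.Injective F.f := by
  obtain ⟨c, hc⟩ := exists_inj_of_le hX
  obtain ⟨F, hF⟩ := h.color c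
  exact ⟨F, fun x y hxy => hc (hF x y hxy)⟩

end Pool.Agent.H61.Sp
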