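import Pool.Agent.H61.SpBase

set_option autoImplicit false

open Set
open scoped Cardinal

namespace Pool.Agent.H61.Sp

section color

variable {Γ : Type} [LinearOrder Γ] [WellFoundedLT Γ]

/-- The countable subsets of `T` admit a colouring by `ℕ → Prop` which distinguishes sets from
their proper subsets. -/
def Col (T : Set Γ) : Prop :=
  ∃ c : Set Γ → ℕ → Prop, ∀ x ⊆ T, x.Countable → ∀ y, y ⊂ x → c y ≠ c x

omit [WellFoundedLT Γ] in
/-- A code of the order type of a countable set. -/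
theorem exists_code : ∃ o : Set Γ → Set (ℕ × ℕ), ∀ x y : Set Γ, x.Countable → y.Countable →
    o x = o y → ∃ f : Γ → Γ, (∀ a ∈ x, f a ∈ y) ∧ ∀ a ∈ x, ∀ b ∈ x, a < b → f a < f b := by
  classical
  have h1 : ∀ x : Set Γ, ∃ j : Γ → ℕ, x.Countable → InjOn j x := by
    intro x
    by_cases hx : x.Countable
    · obtain ⟨j, hj⟩ := Set.countable_iff_exists_injOn.1 hx
      exact ⟨j, fun _ => hj⟩
    · exact ⟨fun _ => 0, fun h => absurd h hx⟩
  choose j hj using h1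
  refine ⟨fun x => {p | ∃ a ∈ x, ∃ b ∈ x, a ≤ b ∧ j x a = p.1 ∧ j x b = p.2}, ?_⟩
  intro x y hx hy hxy
  dsimp only at hxy
  have h2 : ∀ a, ∃ b, a ∈ x → b ∈ y ∧ j y b = j x a := by
    intro a
    by_cases ha : a ∈ x
    · have h3 : (j x a, j x a) ∈ {p : ℕ × ℕ | ∃ a ∈ x, ∃ b ∈ x, a ≤ b ∧ j x a = p.1 ∧ j x b = p.2} :=
        ⟨a, ha, a, ha, le_rfl, rfl, rfl⟩
      rw [hxy] at h3
      obtain ⟨b, hb, _, _, _, hb', _⟩ := h3
      exact ⟨b, fun _ => ⟨hb, hb'⟩⟩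
    · exact ⟨a, fun h => absurd h ha⟩
  choose f hf using h2
  refine ⟨f, fun a ha => (hf a ha).1, fun a ha b hb hab => ?_⟩
  have h3 : (j x a, j x b) ∈ {p : ℕ × ℕ | ∃ a ∈ x, ∃ b ∈ x, a ≤ b ∧ j x a = p.1 ∧ j x b = p.2} :=
    ⟨a, ha, b, hb, hab.le, rfl, rfl⟩
  rw [hxy] at h3
  obtain ⟨a', ha', b', hb', hab', hja, hjb⟩ := h3
  have h4 : a' = f a := hj y hy ha' (hf a ha).1 (hja.trans (hf a ha).2.symm)
  have h5 : b' = f b := hj y hy hb' (hf b hb).1 (hjb.trans (hf b hb).2.symm)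
  subst h4
  subst h5
  refine lt_of_le_of_ne hab' fun h => hab.ne ?_
  refine hj x hx ha hb ?_
  rw [← (hf a ha).2, ← (hf b hb).2, h]

theorem Col.step (T : Set Γ) (hT : ∀ i ∈ T, ∀ j, j ≤ i → j ∈ T) (h : ∀ i ∈ T, Col (Iio i)) :
    Col T := by
  classical
  have h1 : ∀ i, ∃ c : Set Γ → ℕ → Prop, i ∈ T → ∀ x ⊆ Iio i, x.Countable → ∀ y, y ⊂ x →
      c y ≠ c x := by
    intro i
    by_cases hi : i ∈ T
    · obtain ⟨c, hc⟩ := h i hi
      exact ⟨c, fun _ => hc⟩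
    · exact ⟨fun _ _ => True, fun h' => absurd h' hi⟩
  choose c hc using h1
  by_cases hcase : ∃ C ⊆ T, C.Countable ∧ ∀ i ∈ T, ∃ k ∈ C, i ≤ k
  · obtain ⟨C, hCT, hCc, hC⟩ := hcase
    rcases T.eq_empty_or_nonempty with rfl | ⟨i₀, hi₀⟩
    · refine ⟨fun _ _ => True, fun x hx _ y hy => ?_⟩
      obtain ⟨a, ha, _⟩ := Set.exists_of_ssubset hy
      exact absurd (hx ha) (notMem_empty a)
    · obtain ⟨k₀, hk₀, _⟩ := hC i₀ hi₀
      obtain ⟨k, rfl⟩ := hCc.exists_eq_range ⟨k₀, hk₀⟩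
      obtain ⟨enc, henc⟩ := exists_inj_of_le (α := ℕ → (ℕ → Prop) × Prop) (by simp)
      refine ⟨fun x => enc fun n => (c (k n) (x ∩ Iio (k n)), k n ∈ x), fun x hx hxc y hy heq => ?_⟩
      have h2 := henc heq
      obtain ⟨a, hax, hay⟩ := Set.exists_of_ssubset hy
      obtain ⟨_, ⟨n, rfl⟩, han⟩ := hC a (hx hax)
      have h3 := congrFun h2 n
      rw [Prod.mk.injEq] at h3
      rcases lt_or_eq_of_le han with hlt | heq'
      · refine hc (k n) (hCT ⟨n, rfl⟩) (x ∩ Iio (k n)) inter_subset_right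
          (hxc.mono inter_subset_left) (y ∩ Iio (k n)) ?_ h3.1
        refine ⟨inter_subset_inter_left _ hy.1, fun h4 => hay (h4 ⟨hax, hlt⟩).1⟩
      · subst heq'
        exact hay (h3.2.mpr hax)
  · push Not at hcase
    have hbd : ∀ x ⊆ T, x.Countable → ∃ b ∈ T, ∀ a ∈ x, a < b := fun x hx hxc => hcase x hx hxc
    have hs : ∀ x : Set Γ, ∃ s, x ⊆ T → x.Countable → s ∈ T ∧ (∀ a ∈ x, a < s) ∧
        ∀ b ∈ T, (∀ a ∈ x, a < b) → s ≤ b := by
      intro x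
      by_cases hx : x ⊆ T ∧ x.Countable
      · have hne : {b | b ∈ T ∧ ∀ a ∈ x, a < b}.Nonempty := by
          obtain ⟨b, hb, hb'⟩ := hbd x hx.1 hx.2
          exact ⟨b, hb, hb'⟩
        refine ⟨WellFounded.min (wellFounded_lt (α := Γ)) _ hne, fun _ _ => ?_⟩
        have h2 := WellFounded.min_mem (wellFounded_lt (α := Γ)) _ hne
        refine ⟨h2.1, h2.2, fun b hb hb' => ?_⟩
        exact not_lt.1 (WellFounded.not_lt_min (wellFounded_lt (α := Γ)) _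
          (show b ∈ {b | b ∈ T ∧ ∀ a ∈ x, a < b} from ⟨hb, hb'⟩))
      · obtain ⟨b, _, _⟩ := hbd ∅ (empty_subset _) countable_empty
        exact ⟨b, fun h3 h4 => absurd ⟨h3, h4⟩ hx⟩
    choose s hs using hs
    obtain ⟨o, ho⟩ := exists_code (Γ := Γ)
    obtain ⟨enc, henc⟩ := exists_inj_of_le (α := Set (ℕ × ℕ) × (ℕ → Prop)) (by simp)
    refine ⟨fun x => enc (o x, c (s x) x), fun x hx hxc y hy heq => ?_⟩
    have h2 := henc heq
    rw [Prod.mk.injEq] at h2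
    obtain ⟨hsxT, hsx1, hsx2⟩ := hs x hx hxc
    obtain ⟨hsyT, hsy1, hsy2⟩ := hs y (hy.1.trans hx) (hxc.mono hy.1)
    have hle : s y ≤ s x := hsy2 _ hsxT fun a ha => hsx1 a (hy.1 ha)
    rcases lt_or_eq_of_le hle with hlt | heq'
    · -- then `y` is bounded in `x`
      have h3 : ∃ a ∈ x, s y ≤ a := by
        by_contra hcon
        push Not at hcon
        exact absurd (hsx2 _ hsyT hcon) (not_le.2 hlt)
      obtain ⟨a, hax, hsa⟩ := h3
      obtain ⟨f, hf1, hf2⟩ := ho x y hxc (hxc.mono hy.1) h2.1.symm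
      have hne : {b | b ∈ x ∧ f b < b}.Nonempty :=
        ⟨a, hax, (hsy1 _ (hf1 a hax)).trans_le hsa⟩
      have h4 := WellFounded.min_mem (wellFounded_lt (α := Γ)) _ hne
      have h5 := hf2 _ (hy.1 (hf1 _ h4.1)) _ h4.1 h4.2
      exact WellFounded.not_lt_min (wellFounded_lt (α := Γ)) {b | b ∈ x ∧ f b < b}
        (show f _ ∈ {b | b ∈ x ∧ f b < b} from ⟨hy.1 (hf1 _ h4.1), h5⟩) h4.2
    · rw [heq'] at h2
      exact hc (s x) hsxT x hsx1 hxc y hy h2.2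

theorem Col.all : Col (univ : Set Γ) := by
  refine Col.step univ (fun _ _ _ _ => mem_univ _) fun i _ => ?_
  induction i using WellFoundedLT.induction with
  | ind i ih =>
    exact Col.step (Iio i) (fun k hk j hj => lt_of_le_of_lt hj hk) fun k hk => ih k hk (mem_univ k)

end color

theorem exists_color (Γ : Type) :
    ∃ c : Set Γ → ℕ → Prop, ∀ x : Set Γ, x.Countable → ∀ y, y ⊂ x → c y ≠ c x := by
  classical
  let _ : LinearOrder Γ := linearOrderOfSTO (WellOrderingRel (α := Γ))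
  have : WellFoundedLT Γ := inferInstanceAs (IsWellFounded Γ WellOrderingRel)
  obtain ⟨c, hc⟩ := Col.all (Γ := Γ)
  exact ⟨c, fun x hx => hc x (subset_univ _) hx⟩

end Pool.Agent.H61.Sp
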