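import Pool.Agent.H61.SpFU

set_option autoImplicit false

open Set Topology Filter
open scoped Cardinal

namespace Pool.Agent.H61.Sp

variable {X : Type} [TopologicalSpace X]

/-- `B` separates the points of `closure A` and every point of `X` is represented in
`closure A` with respect to `B`. -/
structure Good (A : Set X) (B : Set C(X, ℝ)) : Prop where
  ex : ∀ x, ∃ z ∈ closure A, ∀ g ∈ B, g z = g x
  sep : ∀ z ∈ closure A, ∀ z' ∈ closure A, (∀ g ∈ B, g z = g z') → z = z'

namespace Good

variable {A : Set X} {B : Set C(X, ℝ)}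

/-- The retraction. -/
noncomputable def r (h : Good A B) (x : X) : X := (h.ex x).choose

theorem r_mem (h : Good A B) (x : X) : h.r x ∈ closure A := (h.ex x).choose_spec.1

theorem r_eq (h : Good A B) (x : X) : ∀ g ∈ B, g (h.r x) = g x := (h.ex x).choose_spec.2

theorem r_unique (h : Good A B) (x z : X) (hz : z ∈ closure A) (hg : ∀ g ∈ B, g z = g x) :
    h.r x = z :=
  h.sep _ (h.r_mem x) _ hz fun g hgB => (h.r_eq x g hgB).trans (hg g hgB).symm

theorem r_cont [CompactSpace X] (h : Good A B) : Continuous h.r := by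
  rw [continuous_iff_isClosed]
  intro C hC
  have h1 : h.r ⁻¹' C = Prod.fst '' {p : X × X | p.2 ∈ C ∩ closure A ∧ ∀ g ∈ B, g p.2 = g p.1} := by
    ext x
    constructor
    · intro hx
      exact ⟨(x, h.r x), ⟨⟨hx, h.r_mem x⟩, h.r_eq x⟩, rfl⟩
    · rintro ⟨⟨x', z⟩, ⟨⟨hzC, hzA⟩, hz⟩, rfl⟩
      rw [mem_preimage, h.r_unique _ z hzA hz]
      exact hzC
  rw [h1]
  refine isClosedMap_fst_of_compactSpace _ ?_
  refine IsClosed.inter ((hC.inter isClosed_closure).preimage continuous_snd) ?_
  have h2 : {p : X × X | ∀ g ∈ B, g p.2 = g p.1} = ⋂ g ∈ B, {p : X × X | g p.2 = g p.1} := by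
    ext p
    simp
  change IsClosed {p : X × X | ∀ g ∈ B, g p.2 = g p.1}
  rw [h2]
  refine isClosed_biInter fun g _ => isClosed_eq ?_ ?_ <;> fun_prop

end Good

/-- A Corson type embedding of a subset. -/
def CorsonOn (L : Set X) : Prop :=
  ∃ (Γ : Type) (φ : X → Γ → ℝ), ContinuousOn φ L ∧ InjOn φ L ∧ ∀ x ∈ L, {γ | φ x γ ≠ 0}.Countable

section comb

variable {I : Type} [LinearOrder I] (A : I → Set X) (B : I → Set C(X, ℝ))

theorem comb_count [CompactSpace X] (hs : Splt X) (hAm : Monotone A)
    (hg : ∀ i, Good (A i) (B i))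
    (hg' : ∀ i, (∃ j, j < i) → Good (⋃ j ∈ Iio i, A j) (⋃ j ∈ Iio i, B j)) (x : X)
    (T : Set I) (hT : ∀ i ∈ T, ∀ j, j ≤ i → j ∈ T)
    (hTc : ∀ j ∈ T, ({i | ∃ h : (∃ j, j < i), (hg i).r x ≠ (hg' i h).r x} ∩ Iio j).Countable)
    (w : X) (hw : w ∈ closure (⋃ j ∈ T, A j)) (hwx : ∀ j ∈ T, ∀ g ∈ B j, g w = g x) :
    ({i | ∃ h : (∃ j, j < i), (hg i).r x ≠ (hg' i h).r x} ∩ T).Countable := by
  set N : Set I := {i | ∃ h : (∃ j, j < i), (hg i).r x ≠ (hg' i h).r x} with hN
  obtain ⟨B', hB', hB'c, hwB'⟩ := tight hs _ w hw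
  have h1 : ∀ b : B', ∃ j ∈ T, (b : X) ∈ A j := by
    intro b
    obtain ⟨j, hj, hb⟩ := mem_iUnion₂.1 (hB' b.2)
    exact ⟨j, hj, hb⟩
  choose j hjT hj using h1
  have hC : (range j).Countable := by
    have := hB'c.to_subtype
    exact countable_range j
  have hsmall : ∀ i ∈ T, (N ∩ Iic i).Countable := by
    intro i hi
    have : N ∩ Iic i ⊆ (N ∩ Iio i) ∪ {i} := by
      rintro k ⟨hk, hki⟩
      rcases lt_or_eq_of_le hki with h | h
      · exact Or.inl ⟨hk, h⟩
      · exact Or.inr h
    exact ((hTc i hi).union (countable_singleton i)).mono this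
  by_cases hcase : ∀ i ∈ T, ∃ c ∈ range j, i ≤ c
  · have h2 : N ∩ T ⊆ ⋃ c ∈ range j, (N ∩ Iic c) := by
      rintro k ⟨hk, hkT⟩
      obtain ⟨c, hc, hkc⟩ := hcase k hkT
      exact mem_biUnion hc ⟨hk, hkc⟩
    refine (hC.biUnion ?_).mono h2
    rintro _ ⟨b, rfl⟩
    exact hsmall _ (hjT b)
  · push Not at hcase
    obtain ⟨i, hiT, hi⟩ := hcase
    have hwi : w ∈ closure (A i) := by
      refine closure_mono ?_ hwB'
      intro b hb
      exact hAm (hi _ ⟨⟨b, hb⟩, rfl⟩).le (hj ⟨b, hb⟩)
    refine (hsmall i hiT).mono ?_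
    rintro k ⟨⟨hk, hkN⟩, hkT⟩
    refine ⟨⟨hk, hkN⟩, ?_⟩
    by_contra hki
    rw [mem_Iic, not_le] at hki
    apply hkN
    rw [(hg k).r_unique x w (closure_mono (hAm hki.le) hwi) (hwx k hkT),
      (hg' k hk).r_unique x w ?_ ?_]
    · refine closure_mono ?_ hwi
      exact subset_biUnion_of_mem (u := fun j => A j) (mem_Iio.2 hki)
    · intro g hgB
      obtain ⟨l, hl, hgl⟩ := mem_iUnion₂.1 hgB
      exact hwx l (hT k hkT l (mem_Iio.1 hl).le) g hgl

theorem comb [CompactSpace X] [T2Space X] (hs : Splt X) [WellFoundedLT I] (hAm : Monotone A)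
    (hg : ∀ i, Good (A i) (B i))
    (hg' : ∀ i, (∃ j, j < i) → Good (⋃ j ∈ Iio i, A j) (⋃ j ∈ Iio i, B j))
    (hd : Dense (⋃ i, A i)) (hsep : ∀ x y, (∀ i, ∀ g ∈ B i, g x = g y) → x = y)
    (hc : ∀ i, CorsonOn (closure (A i))) : CorsonOn (univ : Set X) := by
  classical
  choose Γ φ hφc hφi hφs using hc
  let ψ : X → (Σ i, Γ i) → ℝ := fun x p =>
    φ p.1 ((hg p.1).r x) p.2 -
      if h : ∃ j, j < p.1 then φ p.1 ((hg' p.1 h).r x) p.2 else 0
  have hsub : ∀ i, (⋃ j ∈ Iio i, A j) ⊆ A i := fun i =>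
    iUnion₂_subset fun j hj => hAm (mem_Iio.1 hj).le
  refine ⟨Σ i, Γ i, ψ, ?_, ?_, ?_⟩
  · rw [continuousOn_univ]
    refine continuous_pi fun p => ?_
    obtain ⟨i, γ⟩ := p
    refine Continuous.sub ?_ ?_
    · have h1 : Continuous fun x => φ i ((hg i).r x) :=
        (hφc i).comp_continuous (hg i).r_cont fun x => (hg i).r_mem x
      exact (continuous_apply γ).comp h1
    · by_cases h : ∃ j, j < i
      · simp only [h, dif_pos]
        have h1 : Continuous fun x => φ i ((hg' i h).r x) :=
          (hφc i).comp_continuous (hg' i h).r_cont fun x =>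
            closure_mono (hsub i) ((hg' i h).r_mem x)
        exact (continuous_apply γ).comp h1
      · simp only [h, dif_neg, not_false_eq_true]
        exact continuous_const
  · intro x _ y _ hxy
    have h1 : ∀ i, (hg i).r x = (hg i).r y := by
      intro i
      induction i using WellFoundedLT.induction with
      | ind i ih =>
        refine hφi i ((hg i).r_mem x) ((hg i).r_mem y) ?_
        funext γ
        have h2 := congrFun hxy ⟨i, γ⟩
        simp only [ψ] at h2
        by_cases h : ∃ j, j < i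
        · simp only [h, dif_pos] at h2
          have h3 : (hg' i h).r x = (hg' i h).r y := by
            refine (hg' i h).sep _ ((hg' i h).r_mem x) _ ((hg' i h).r_mem y) fun g hgB => ?_
            rw [(hg' i h).r_eq x g hgB, (hg' i h).r_eq y g hgB]
            obtain ⟨j, hj, hgj⟩ := mem_iUnion₂.1 hgB
            rw [← (hg j).r_eq x g hgj, ← (hg j).r_eq y g hgj, ih j hj]
          rw [h3] at h2
          linarith
        · simp only [h, dif_neg, not_false_eq_true] at h2
          linarith
    refine hsep x y fun i g hgB => ?_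
    rw [← (hg i).r_eq x g hgB, ← (hg i).r_eq y g hgB, h1 i]
  · intro x _
    set N : Set I := {i | ∃ h : (∃ j, j < i), (hg i).r x ≠ (hg' i h).r x} with hN
    have h1 : ∀ i, (N ∩ Iio i).Countable := by
      intro i
      induction i using WellFoundedLT.induction with
      | ind i ih =>
        by_cases h : ∃ j, j < i
        · refine comb_count A B hs hAm hg hg' x (Iio i) (fun k hk j hj => ?_)
            (fun j hj => ih j hj) ((hg' i h).r x) ((hg' i h).r_mem x) ?_
          · exact lt_of_le_of_lt hj hk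
          · intro j hj g hgB
            exact (hg' i h).r_eq x g (mem_biUnion hj hgB)
        · have : N ∩ Iio i = ∅ := by
            ext k
            simp only [mem_inter_iff, mem_Iio, mem_empty_iff_false, iff_false, not_and]
            exact fun _ hk => h ⟨k, hk⟩
          rw [this]
          exact countable_empty
    have h2 : N.Countable := by
      have h3 := comb_count A B hs hAm hg hg' x univ (fun _ _ _ _ => mem_univ _)
        (fun j _ => h1 j) x (by
          have : (⋃ j ∈ (univ : Set I), A j) = ⋃ i, A i := by simp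
          rw [this]
          exact hd x) (fun _ _ _ _ => rfl)
      rwa [inter_univ] at h3
    have hM : Set.Subsingleton {i : I | ¬ ∃ j, j < i} := by
      intro i hi k hk
      rw [mem_ofPred_eq] at hi hk
      push Not at hi hk
      exact le_antisymm (hi k) (hk i)
    have h4 : {p : Σ i, Γ i | ψ x p ≠ 0} ⊆ ⋃ i ∈ N ∪ {i : I | ¬ ∃ j, j < i},
        Sigma.mk i '' ({γ | φ i ((hg i).r x) γ ≠ 0} ∪
          {γ | ∃ h : (∃ j, j < i), φ i ((hg' i h).r x) γ ≠ 0}) := by
      rintro ⟨i, γ⟩ hp
      rw [mem_ofPred_eq] at hp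
      have hiN : i ∈ N ∪ {i : I | ¬ ∃ j, j < i} := by
        by_contra hcon
        rw [mem_union, not_or] at hcon
        obtain ⟨hc1, hc2⟩ := hcon
        rw [mem_ofPred_eq, not_not] at hc2
        have hc3 : (hg i).r x = (hg' i hc2).r x := by
          by_contra h
          exact hc1 ⟨hc2, h⟩
        apply hp
        simp only [ψ, hc2, dif_pos]
        rw [hc3, sub_self]
      refine mem_biUnion hiN ⟨γ, ?_, rfl⟩
      by_contra hcon
      rw [mem_union, not_or] at hcon
      obtain ⟨hc1, hc2⟩ := hcon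
      rw [mem_ofPred_eq, not_not] at hc1
      rw [mem_ofPred_eq] at hc2
      apply hp
      simp only [ψ]
      by_cases h : ∃ j, j < i
      · simp only [h, dif_pos]
        have : φ i ((hg' i h).r x) γ = 0 := by
          by_contra h'
          exact hc2 ⟨h, h'⟩
        rw [this, hc1, sub_self]
      · simp only [h, dif_neg, not_false_eq_true]
        rw [hc1, sub_self]
    refine Countable.mono h4 (Countable.biUnion (h2.union hM.countable) fun i _ => ?_)
    refine Countable.image (Countable.union (hφs i _ ((hg i).r_mem x)) ?_) _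
    by_cases h : ∃ j, j < i
    · simp only [h, exists_true_left]
      exact hφs i _ (closure_mono (hsub i) ((hg' i h).r_mem x))
    · simp only [h, IsEmpty.exists_iff]
      simp

end comb

end Pool.Agent.H61.Sp
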