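import Pool.Agent.H61.SpPS

set_option autoImplicit false

open Set Topology Filter
open scoped Cardinal

namespace Pool.Agent.H61.Sp

/-- Closing off a set of size at most the continuum under at most continuum many operations
of countable arity. -/
theorem exists_closed {Ω I J : Type} (hJ : #J ≤ ℵ₀) (hI : #I ≤ 𝔠) (φ : I → (J → Ω) → Ω)
    (S : Set Ω) (hS : #S ≤ 𝔠) :
    ∃ T : Set Ω, S ⊆ T ∧ #T ≤ 𝔠 ∧ ∀ i (s : J → Ω), (∀ j, s j ∈ T) → φ i s ∈ T := by
  let β : S ⊕ I → Type := fun a => Sum.elim (fun _ => Empty) (fun _ => J) a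
  let step : (Σ a : S ⊕ I, β a → Ω) → Ω := fun p =>
    match p with
    | ⟨Sum.inl s, _⟩ => s
    | ⟨Sum.inr i, g⟩ => φ i g
  let ev : WType β → Ω := WType.elim Ω step
  have hcard : #(WType β) ≤ 𝔠 := by
    refine WType.cardinalMk_le_of_le' ?_
    have h1 : ∀ a : S ⊕ I, 𝔠 ^ Cardinal.lift.{0} #(β a) ≤ (𝔠 : Cardinal.{0}) := by
      intro a
      rcases a with s | i
      · have : #(β (Sum.inl s)) = 0 := by
          simp only [β, Sum.elim_inl]
          simp
        rw [this]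
        simpa using Cardinal.one_lt_aleph0.le.trans Cardinal.aleph0_le_continuum
      · have h3 : #(β (Sum.inr i)) ≤ ℵ₀ := hJ
        have h2 : (𝔠 : Cardinal.{0}) ^ Cardinal.lift.{0} #(β (Sum.inr i)) ≤ 𝔠 ^ ℵ₀ :=
          Cardinal.power_le_power_left Cardinal.continuum_ne_zero (by simpa using h3)
        simpa using h2
    refine (Cardinal.sum_le_sum _ (fun _ => 𝔠) h1).trans ?_
    rw [Cardinal.sum_const]
    simp only [Cardinal.lift_id, Cardinal.mk_sum]
    refine Cardinal.mul_le_of_le Cardinal.aleph0_le_continuum ?_ le_rfl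
    exact Cardinal.add_le_of_le Cardinal.aleph0_le_continuum hS hI
  refine ⟨range ev, ?_, Cardinal.mk_range_le.trans hcard, ?_⟩
  · intro s hs
    exact ⟨WType.mk (Sum.inl ⟨s, hs⟩) (fun e : Empty => e.elim), rfl⟩
  · intro i s hs
    choose w hw using hs
    refine ⟨WType.mk (Sum.inr i) w, ?_⟩
    have : (fun j => ev (w j)) = s := funext hw
    change φ i (fun j => ev (w j)) = _
    rw [this]

theorem nhds_pi_real {Γ : Type} (y : Γ → ℝ) (V : Set (Γ → ℝ)) (hV : V ∈ 𝓝 y) :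
    ∃ (F : Finset Γ) (k : ℕ), ∀ y' : Γ → ℝ, (∀ γ ∈ F, |y' γ - y γ| < 1 / ((k : ℝ) + 1)) → y' ∈ V := by
  classical
  rw [nhds_pi, Filter.mem_pi] at hV
  obtain ⟨I, hI, t, ht, hsub⟩ := hV
  choose ε hε hεt using fun γ => Metric.mem_nhds_iff.1 (ht γ)
  choose k hk using fun γ => exists_nat_one_div_lt (hε γ)
  refine ⟨hI.toFinset, hI.toFinset.sup k, fun y' hy' => hsub fun γ hγ => hεt γ ?_⟩
  rw [Metric.mem_ball, Real.dist_eq]
  refine (hy' γ (by simpa using hγ)).trans_le (le_trans ?_ (hk γ).le)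
  apply one_div_le_one_div_of_le
  · positivity
  · have h1 : k γ ≤ hI.toFinset.sup k := Finset.le_sup (by simpa using hγ)
    have h2 : (k γ : ℝ) ≤ (hI.toFinset.sup k : ℕ) := by exact_mod_cast h1
    linarith

variable {X : Type} [TopologicalSpace X]

/-- The coded basic sets. -/
def Q (G : X → CM X) (p : ℕ → X) (c : ℕ × ℕ) : Set X :=
  {x | ∀ i < c.1, ∀ γ, 1 / ((c.2 : ℝ) + 1) ≤ |(G (p 0)).f (p i) γ - (G (p 0)).f (p 0) γ| →
    |(G (p 0)).f x γ - (G (p 0)).f (p 0) γ| < 1 / ((c.2 : ℝ) + 1)}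

theorem isOpen_Q (G : X → CM X) (p : ℕ → X) (c : ℕ × ℕ) : IsOpen (Q G p c) := by
  have h : Q G p c = ⋂ i ∈ Finset.range c.1,
      ⋂ γ ∈ {γ | 1 / ((c.2 : ℝ) + 1) ≤ |(G (p 0)).f (p i) γ - (G (p 0)).f (p 0) γ|},
        {x | |(G (p 0)).f x γ - (G (p 0)).f (p 0) γ| < 1 / ((c.2 : ℝ) + 1)} := by
    ext x
    simp [Q]
  rw [h]
  refine isOpen_biInter_finset fun i _ => ?_
  refine Set.Finite.isOpen_biInter ((G (p 0)).finSub _ _ Nat.one_div_pos_of_nat) fun γ _ => ?_
  have := (G (p 0)).contCoord γ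
  exact isOpen_lt (this.sub continuous_const).abs continuous_const

theorem mem_Q (G : X → CM X) (p : ℕ → X) (c : ℕ × ℕ) : p 0 ∈ Q G p c := by
  intro i _ γ _
  rw [sub_self, abs_zero]
  exact Nat.one_div_pos_of_nat

theorem base_Q [T35Space X] (hp : Pc X) (G : X → CM X)
    (hG : ∀ z y, (G z).f y = (G z).f z → y = z) (P : Set X) (z : X) (hz : z ∈ P) (W : Set X)
    (hW : W ∈ 𝓝 z) :
    ∃ p : ℕ → X, (∀ i, p i ∈ P) ∧ p 0 = z ∧ ∃ c, Q G p c ∩ P ⊆ W := by
  classical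
  obtain ⟨V, hV, hVW⟩ := hp.base (G z) z (hG z) W hW
  obtain ⟨F, k, hF⟩ := nhds_pi_real _ V hV
  have hw : ∀ γ, ∃ w ∈ P, (∃ x ∈ P, (G z).f x γ ≠ (G z).f z γ) → (G z).f w γ ≠ (G z).f z γ := by
    intro γ
    by_cases h : ∃ x ∈ P, (G z).f x γ ≠ (G z).f z γ
    · obtain ⟨x, hx, hx'⟩ := h
      exact ⟨x, hx, fun _ => hx'⟩
    · exact ⟨z, hz, fun h' => absurd h' h⟩
  choose w hwP hw using hw
  have hk : ∀ γ, ∃ k' : ℕ, (G z).f (w γ) γ ≠ (G z).f z γ →
      1 / ((k' : ℝ) + 1) < |(G z).f (w γ) γ - (G z).f z γ| := by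
    intro γ
    by_cases h : (G z).f (w γ) γ ≠ (G z).f z γ
    · obtain ⟨k', hk'⟩ := exists_nat_one_div_lt (abs_pos.2 (sub_ne_zero.2 h))
      exact ⟨k', fun _ => hk'⟩
    · exact ⟨0, fun h' => absurd h' h⟩
  choose k' hk' using hk
  let p : ℕ → X := fun i => Nat.casesOn i z fun i => (F.toList.map w).getD i z
  refine ⟨p, ?_, rfl, (F.card + 1, max k (F.sup k')), ?_⟩
  · intro i
    rcases i with _ | i
    · exact hz
    · change (F.toList.map w).getD i z ∈ P
      by_cases hi : i < (F.toList.map w).length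
      · rw [List.getD_eq_getElem _ _ hi]
        obtain ⟨γ, _, hγ⟩ := List.mem_map.1 (List.getElem_mem hi)
        rw [← hγ]
        exact hwP γ
      · rw [List.getD_eq_default _ _ (not_lt.1 hi)]
        exact hz
  · rintro x ⟨hxQ, hxP⟩
    refine hVW (hF _ fun γ hγ => ?_)
    by_cases hxγ : (G z).f x γ = (G z).f z γ
    · rw [hxγ, sub_self, abs_zero]
      exact Nat.one_div_pos_of_nat
    · have h1 := hw γ ⟨x, hxP, hxγ⟩
      have h2 := hk' γ h1
      obtain ⟨i, hi, hiγ⟩ := List.mem_iff_getElem.1 (Finset.mem_toList.2 hγ)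
      have hi' : i < (F.toList.map w).length := by simpa using hi
      have hpi : p (i + 1) = w γ := by
        change (F.toList.map w).getD i z = w γ
        rw [List.getD_eq_getElem _ _ hi']
        simp [hiγ]
      have hlt : i + 1 < F.card + 1 := by
        have : i < F.toList.length := hi
        rw [Finset.length_toList] at this
        omega
      have hle1 : 1 / (((max k (F.sup k') : ℕ) : ℝ) + 1) ≤ 1 / ((k' γ : ℝ) + 1) := by
        apply one_div_le_one_div_of_le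
        · positivity
        · have h3 : k' γ ≤ max k (F.sup k') := (Finset.le_sup hγ).trans (le_max_right _ _)
          have h4 : (k' γ : ℝ) ≤ ((max k (F.sup k') : ℕ) : ℝ) := by exact_mod_cast h3
          linarith
      have hle2 : 1 / (((max k (F.sup k') : ℕ) : ℝ) + 1) ≤ 1 / ((k : ℝ) + 1) := by
        apply one_div_le_one_div_of_le
        · positivity
        · have h4 : (k : ℝ) ≤ ((max k (F.sup k') : ℕ) : ℝ) := by
            exact_mod_cast le_max_left k (F.sup k')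
          linarith
      have h5 := hxQ (i + 1) hlt γ (by
        change 1 / (((max k (F.sup k') : ℕ) : ℝ) + 1) ≤ |(G z).f (p (i + 1)) γ - (G z).f z γ|
        rw [hpi]
        exact hle1.trans h2.le)
      exact lt_of_lt_of_le h5 hle2

/-- Pseudocompact cleavable spaces are compact. -/
theorem compact_of_splt [T35Space X] (hp : Pc X) (hs : Splt X) : CompactSpace X := by
  classical
  by_contra hX
  -- a neighbourhood assignment without finite subcover
  obtain ⟨U, hU, hUn⟩ : ∃ U : X → Set X, (∀ x, U x ∈ 𝓝 x) ∧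
      ∀ t : Finset X, ∃ w, ∀ x ∈ t, w ∉ U x := by
    by_contra hcon
    apply hX
    refine ⟨isCompact_of_finite_subcover fun {ι} V hVo hVc => ?_⟩
    by_contra hV
    push Not at hV
    apply hcon
    choose i hi using fun x => mem_iUnion.1 (hVc (mem_univ x))
    refine ⟨fun x => V (i x), fun x => (hVo _).mem_nhds (hi x), fun t => ?_⟩
    obtain ⟨w, _, hw⟩ := not_subset.1 (hV (t.image i))
    refine ⟨w, fun x hx hwx => hw ?_⟩
    exact mem_biUnion (Finset.mem_coe.2 (Finset.mem_image_of_mem i hx)) hwx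
  obtain ⟨x0, -⟩ := hUn ∅
  have hG : ∀ z, ∃ F : CM X, ∀ y, F.f y = F.f z → y = z := by
    intro z
    obtain ⟨F, hF⟩ := hs {z}
    exact ⟨F, fun y hy => (hF y z hy).2 rfl⟩
  choose G hG using hG
  let R : ((ℕ → ℕ × ℕ) ⊕ ((ℕ × ℕ) × (ℕ × ℕ)) ⊕ ℕ) → (ℕ × ℕ → X) → X → Prop := fun i s w =>
    match i with
    | Sum.inl c => ∀ W, IsOpen W → w ∈ W → {n | (Q G (fun j => s (n, j)) (c n) ∩ W).Nonempty}.Infinite
    | Sum.inr (Sum.inl (a, b)) =>
        (Q G (fun j => s (0, j)) a ∩ Q G (fun j => s (1, j)) b).Nonempty →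
          w ∈ Q G (fun j => s (0, j)) a ∩ Q G (fun j => s (1, j)) b
    | Sum.inr (Sum.inr m) => ∀ i < m, w ∉ U (s (0, i))
  have hR : ∀ i s, ∃ w, R i s w := by
    rintro (c | ⟨a, b⟩ | m) s
    · exact hp.accum _ (fun n => isOpen_Q G _ _) (fun n => ⟨_, mem_Q G _ _⟩)
    · by_cases h : (Q G (fun j => s (0, j)) a ∩ Q G (fun j => s (1, j)) b).Nonempty
      · obtain ⟨w, hw⟩ := h
        exact ⟨w, fun _ => hw⟩
      · exact ⟨x0, fun h' => absurd h' h⟩
    · obtain ⟨w, hw⟩ := hUn ((Finset.range m).image fun i => s (0, i))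
      exact ⟨w, fun i hi => hw _ (Finset.mem_image_of_mem _ (Finset.mem_range.2 hi))⟩
  choose φ hφ using hR
  have hIc : #((ℕ → ℕ × ℕ) ⊕ ((ℕ × ℕ) × (ℕ × ℕ)) ⊕ ℕ) ≤ 𝔠 := by
    simp
  obtain ⟨P, hxP, hPc, hPφ⟩ := exists_closed (J := ℕ × ℕ) (by simp) hIc φ {x0}
    (by simpa using Cardinal.one_lt_aleph0.le.trans Cardinal.aleph0_le_continuum)
  have hPpc : Pc P := by
    intro g hg
    by_contra hcon
    push Not at hcon
    choose z hz using fun n : ℕ => hcon n
    have h1 : ∀ n : ℕ, ∃ p : ℕ → X, (∀ i, p i ∈ P) ∧ p 0 = z n ∧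
        ∃ c, Q G p c ∩ P ⊆ Subtype.val '' {y : P | |g y - g (z n)| < 1} := by
      intro n
      have h2 : {y : P | |g y - g (z n)| < 1} ∈ 𝓝 (z n) := by
        refine (isOpen_lt (hg.sub continuous_const).abs continuous_const).mem_nhds ?_
        simp
      obtain ⟨W, hW, hW'⟩ := mem_nhds_subtype _ _ _ |>.1 h2
      obtain ⟨p, hp1, hp2, c, hc⟩ := base_Q hp G hG P (z n) (z n).2 W hW
      exact ⟨p, hp1, hp2, c, fun y hy => ⟨⟨y, hy.2⟩, hW' (hc hy), rfl⟩⟩
    choose p hpP hp0 c hc using h1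
    have hxP' := hPφ (Sum.inl c) (fun ij => p ij.1 ij.2) (fun ij => hpP _ _)
    have hx' : R (Sum.inl c) (fun ij => p ij.1 ij.2) _ := hφ (Sum.inl c) (fun ij => p ij.1 ij.2)
    set x := φ (Sum.inl c) (fun ij => p ij.1 ij.2) with hxdef
    obtain ⟨p', hp'1, hp'2, c', hc'⟩ : ∃ p' : ℕ → X, (∀ i, p' i ∈ P) ∧ p' 0 = x ∧
        ∃ c, Q G p' c ∩ P ⊆ Subtype.val '' {y : P | |g y - g ⟨x, hxP'⟩| < 1} := by
      have h2 : {y : P | |g y - g ⟨x, hxP'⟩| < 1} ∈ 𝓝 (⟨x, hxP'⟩ : P) := by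
        refine (isOpen_lt (hg.sub continuous_const).abs continuous_const).mem_nhds ?_
        simp
      obtain ⟨W, hW, hW'⟩ := mem_nhds_subtype _ _ _ |>.1 h2
      obtain ⟨p, hp1, hp2, c, hc⟩ := base_Q hp G hG P x hxP' W hW
      exact ⟨p, hp1, hp2, c, fun y hy => ⟨⟨y, hy.2⟩, hW' (hc hy), rfl⟩⟩
    have hinf := hx' (Q G p' c') (isOpen_Q G p' c') (by rw [← hp'2]; exact mem_Q G p' c')
    obtain ⟨N, hN⟩ := exists_nat_gt (|g ⟨x, hxP'⟩| + 2)
    refine hinf ((Set.finite_lt_nat N).subset ?_)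
    intro n hn
    rw [mem_ofPred_eq] at hn
    have h3 := hφ (Sum.inr (Sum.inl (c n, c'))) (fun ij => if ij.1 = 0 then p n ij.2 else p' ij.2)
    have h3' : R (Sum.inr (Sum.inl (c n, c'))) (fun ij => if ij.1 = 0 then p n ij.2 else p' ij.2) _ :=
      h3
    simp only [R, if_true, one_ne_zero, if_false] at h3'
    have h4 := h3' hn
    have h5 := hPφ (Sum.inr (Sum.inl (c n, c'))) (fun ij => if ij.1 = 0 then p n ij.2 else p' ij.2)
      (by
        intro ij
        split_ifs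
        · exact hpP _ _
        · exact hp'1 _)
    obtain ⟨y1, hy1, hy1'⟩ := hc n ⟨h4.1, h5⟩
    obtain ⟨y2, hy2, hy2'⟩ := hc' ⟨h4.2, h5⟩
    have h6 : y1 = y2 := Subtype.ext (hy1'.trans hy2'.symm)
    subst h6
    rw [mem_ofPred_eq] at hy1 hy2
    have h7 := hz n
    have h8 : |g (z n)| < |g ⟨x, hxP'⟩| + 2 := by
      rw [abs_lt] at hy1 hy2
      cases' abs_cases (g (z n)) with h h <;> cases' abs_cases (g ⟨x, hxP'⟩) with h' h' <;>
        linarith [hy1.1, hy1.2, hy2.1, hy2.2, h.1, h'.1]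
    have h9 : (n : ℝ) < N := by linarith
    exact_mod_cast h9
  have hPs : Splt P := hs.pull Subtype.val continuous_subtype_val Subtype.val_injective
  obtain ⟨F, hF⟩ := hPs.inj_of_le hPc
  have hPcomp : IsCompact P := isCompact_iff_compactSpace.2 (hPpc.compact_of_inj F hF)
  obtain ⟨t, htP, ht⟩ := hPcomp.elim_nhds_subcover U fun x _ => hU x
  let s : ℕ × ℕ → X := fun ij => t.toList.getD ij.2 x0
  have hs' : ∀ ij, s ij ∈ P := by
    intro ij
    change t.toList.getD ij.2 x0 ∈ P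
    by_cases hi : ij.2 < t.toList.length
    · rw [List.getD_eq_getElem _ _ hi]
      exact htP _ (Finset.mem_toList.1 (List.getElem_mem hi))
    · rw [List.getD_eq_default _ _ (not_lt.1 hi)]
      exact hxP rfl
  have hw := hPφ (Sum.inr (Sum.inr t.toList.length)) s hs'
  have hw' : R (Sum.inr (Sum.inr t.toList.length)) s _ := hφ (Sum.inr (Sum.inr t.toList.length)) s
  obtain ⟨x, hx, hxU⟩ := mem_iUnion₂.1 (ht hw)
  obtain ⟨i, hi, hix⟩ := List.mem_iff_getElem.1 (Finset.mem_toList.2 hx)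
  refine hw' i hi ?_
  have : s (0, i) = x := by
    change t.toList.getD i x0 = x
    rw [List.getD_eq_getElem _ _ hi, hix]
  rw [this]
  exact hxU

end Pool.Agent.H61.Sp
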