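import Pool.Agent.H61.SpBase
import Pool.Agent.H61.Clos

set_option autoImplicit false

open Set Topology Filter
open scoped Cardinal

namespace Pool.Agent.H61.Sp

variable {X : Type} [TopologicalSpace X]

theorem one_div_succ_le {a b : ℕ} (h : a ≤ b) : 1 / ((b : ℝ) + 1) ≤ 1 / ((a : ℝ) + 1) := by
  apply one_div_le_one_div_of_le
  · positivity
  · have : (a : ℝ) ≤ b := by exact_mod_cast h
    linarith

/-- Compact cleavable spaces are Fréchet-Urysohn. -/
theorem fu [CompactSpace X] (hs : Splt X) (B : Set X) (x : X) (hx : x ∈ closure B) :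
    ∃ b : ℕ → X, (∀ n, b n ∈ B) ∧ Tendsto b atTop (𝓝 x) := by
  classical
  obtain ⟨F, hF⟩ := hs {x}
  have hF' : ∀ y, F.f y = F.f x → y = x := fun y hy => (hF y x hy).2 rfl
  obtain ⟨a, ha1, ha2⟩ := exists_seq_of_forall_finset_exists (α := X × ℕ) (fun p => p.1 ∈ B)
    (fun p q => p.2 < q.2 ∧ ∀ γ, 1 / ((q.2 : ℝ) + 1) ≤ |F.f p.1 γ - F.f x γ| →
      |F.f q.1 γ - F.f x γ| < 1 / ((q.2 : ℝ) + 1)) (by
    intro s _
    have hex : ∃ k : ℕ, ∀ p ∈ s, p.2 < k := by
      refine ⟨s.sup Prod.snd + 1, fun p hp => ?_⟩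
      exact Nat.lt_succ_of_le (Finset.le_sup (f := Prod.snd) hp)
    obtain ⟨k, hk⟩ := hex
    let W : Set X := ⋂ p ∈ s, ⋂ γ ∈ {γ | 1 / ((k : ℝ) + 1) ≤ |F.f p.1 γ - F.f x γ|},
      {y | |F.f y γ - F.f x γ| < 1 / ((k : ℝ) + 1)}
    have hW : IsOpen W := by
      refine isOpen_biInter_finset fun p _ => ?_
      refine Set.Finite.isOpen_biInter (F.finSub _ _ Nat.one_div_pos_of_nat) fun γ _ => ?_
      exact isOpen_lt ((F.contCoord γ).sub continuous_const).abs continuous_const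
    have hxW : x ∈ W := by
      simp only [W, mem_iInter, mem_ofPred_eq, sub_self, abs_zero]
      intro _ _ _ _
      exact Nat.one_div_pos_of_nat
    obtain ⟨y, hyW, hyB⟩ := mem_closure_iff.1 hx W hW hxW
    refine ⟨(y, k), hyB, fun p hp => ⟨hk p hp, fun γ hγ => ?_⟩⟩
    simp only [W, mem_iInter, mem_ofPred_eq] at hyW
    exact hyW p hp γ hγ)
  refine ⟨fun n => (a n).1, ha1, ?_⟩
  have hkn : ∀ n, n ≤ (a n).2 := by
    intro n
    induction n with
    | zero => exact Nat.zero_le _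
    | succ n ih => exact lt_of_le_of_lt ih (ha2 n (n + 1) (Nat.lt_succ_self n)).1
  have hlim : Tendsto (fun n => F.f (a n).1) atTop (𝓝 (F.f x)) := by
    rw [tendsto_pi_nhds]
    intro γ
    by_cases h : ∀ n, F.f (a n).1 γ = F.f x γ
    · simp only [h]
      exact tendsto_const_nhds
    · push Not at h
      obtain ⟨m, hm⟩ := h
      obtain ⟨k, hk⟩ := exists_nat_one_div_lt (abs_pos.2 (sub_ne_zero.2 hm))
      rw [Metric.tendsto_atTop]
      intro ε hε
      obtain ⟨j, hj⟩ := exists_nat_one_div_lt hε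
      refine ⟨max (m + 1) (max k j), fun n hn => ?_⟩
      have h1 : m < n := lt_of_lt_of_le (Nat.lt_succ_self m) ((le_max_left _ _).trans hn)
      have h2 : k ≤ (a n).2 := ((le_max_left k j).trans ((le_max_right _ _).trans hn)).trans (hkn n)
      have h3 : j ≤ (a n).2 := ((le_max_right k j).trans ((le_max_right _ _).trans hn)).trans (hkn n)
      have h4 := (ha2 m n h1).2 γ ((one_div_succ_le h2).trans hk.le)
      rw [Real.dist_eq]
      exact h4.trans_le ((one_div_succ_le h3).trans hj.le)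
  refine tendsto_nhds_of_unique_mapClusterPt fun y hy => hF' y ?_
  have h1 : ClusterPt (F.f y) (map F.f (map (fun n => (a n).1) atTop)) :=
    hy.map F.hf.continuousAt tendsto_map
  rw [map_map] at h1
  have : (𝓝 (F.f y) ⊓ 𝓝 (F.f x)).NeBot := (h1.mono hlim).neBot
  exact eq_of_nhds_neBot this

theorem tight [CompactSpace X] (hs : Splt X) (B : Set X) (x : X) (hx : x ∈ closure B) :
    ∃ B' ⊆ B, B'.Countable ∧ x ∈ closure B' := by
  obtain ⟨b, hb, hbx⟩ := fu hs B x hx
  refine ⟨range b, by rintro _ ⟨n, rfl⟩; exact hb n, countable_range b, ?_⟩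
  exact mem_closure_of_tendsto hbx (Eventually.of_forall fun n => mem_range_self n)

theorem mk_closure_le_pow [CompactSpace X] [T2Space X] (hs : Splt X) (D : Set X) :
    #(closure D) ≤ #D ^ ℵ₀ := by
  choose b hb hbx using fun x : closure D => fu hs D x x.2
  have h1 : #(ℕ → D) = #D ^ ℵ₀ := by simp
  rw [← h1]
  refine Cardinal.mk_le_of_injective (f := fun x n => (⟨b x n, hb x n⟩ : D)) ?_
  intro x y hxy
  have h2 : b x = b y := by
    funext n
    exact congrArg Subtype.val (congrFun hxy n)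
  have h3 := hbx x
  rw [h2] at h3
  exact Subtype.ext (tendsto_nhds_unique h3 (hbx y))

theorem mk_closure_le_continuum [CompactSpace X] [T2Space X] (hs : Splt X) (D : Set X)
    (hD : #D ≤ 𝔠) : #(closure D) ≤ 𝔠 := by
  refine (mk_closure_le_pow hs D).trans ?_
  refine (Cardinal.power_le_power_right hD).trans ?_
  simp

theorem mk_closure_le [CompactSpace X] [T2Space X] (hs : Splt X) (D : Set X) (μ : Cardinal.{0})
    (hμ : ℵ₀ ≤ μ) (hD : #D ≤ μ) : #(closure D) ≤ 2 ^ μ := by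
  refine (mk_closure_le_pow hs D).trans ?_
  refine (Cardinal.power_le_power_right (hD.trans (Cardinal.cantor μ).le)).trans ?_
  rw [← Cardinal.power_mul, Cardinal.mul_aleph0_eq hμ]

/-- Coordinates as elements of `C(X, ℝ)`. -/
def CM.coord (F : CM X) (γ : F.Γ) : C(X, ℝ) := ⟨fun x => F.f x γ, F.contCoord γ⟩

theorem CM.eq_zero_of_closure (F : CM X) (D : Set X) (γ : F.Γ) (h : ∀ d ∈ D, F.f d γ = 0)
    (x : X) (hx : x ∈ closure D) : F.f x γ = 0 := by
  have h1 : closure D ⊆ {x | F.f x γ = 0} :=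
    closure_minimal h (isClosed_eq (F.contCoord γ) continuous_const)
  exact h1 hx

/-- Monolithicity. -/
theorem mono [CompactSpace X] [T2Space X] (hs : Splt X) (M : Type) (hM : ℵ₀ ≤ #M) (D : Set X)
    (hD : #D ≤ #M) : ∃ C : Set C(X, ℝ), #C ≤ #M ∧
      ∀ x ∈ closure D, ∀ y ∈ closure D, (∀ g ∈ C, g x = g y) → x = y := by
  have h1 : #(closure D) ≤ #(Set M) := by
    rw [Cardinal.mk_set]
    exact mk_closure_le hs D #M hM hD
  obtain ⟨c⟩ := h1
  choose F hF using fun m : M => hs {x | ∃ h : x ∈ closure D, m ∈ c ⟨x, h⟩}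
  refine ⟨⋃ m, ⋃ d : D, (F m).coord '' {γ | (F m).f d γ ≠ 0}, ?_, ?_⟩
  · refine (Cardinal.mk_iUnion_le_sum_mk).trans ?_
    refine (Cardinal.sum_le_sum _ (fun _ => #M) fun m => ?_).trans ?_
    · refine (Cardinal.mk_iUnion_le_sum_mk).trans ?_
      refine (Cardinal.sum_le_sum _ (fun _ => ℵ₀) fun d => ?_).trans ?_
      · exact Cardinal.le_aleph0_iff_set_countable.2 (((F m).countSupp d).image _)
      · rw [Cardinal.sum_const]
        simp only [Cardinal.lift_id]
        exact Cardinal.mul_le_of_le hM hD hM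
    · rw [Cardinal.sum_const]
      simp only [Cardinal.lift_id]
      exact Cardinal.mul_le_of_le hM le_rfl le_rfl
  · intro x hx y hy hxy
    have h2 : ∀ m, (F m).f x = (F m).f y := by
      intro m
      funext γ
      by_cases h : ∃ d ∈ D, (F m).f d γ ≠ 0
      · obtain ⟨d, hd, hdγ⟩ := h
        exact hxy ((F m).coord γ)
          (mem_iUnion.2 ⟨m, mem_iUnion.2 ⟨⟨d, hd⟩, mem_image_of_mem _ hdγ⟩⟩)
      · push Not at h
        rw [(F m).eq_zero_of_closure D γ h x hx, (F m).eq_zero_of_closure D γ h y hy]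
    have h3 : c ⟨x, hx⟩ = c ⟨y, hy⟩ := by
      ext m
      have h4 := hF m x y (h2 m)
      constructor
      · intro h
        obtain ⟨_, h5⟩ := h4.1 ⟨hx, h⟩
        exact h5
      · intro h
        obtain ⟨_, h5⟩ := h4.2 ⟨hy, h⟩
        exact h5
    exact congrArg Subtype.val (c.injective h3)

/-- Each continuous function is determined by countably many members of a separating family. -/
theorem determined [CompactSpace X] {ι : Type} (u : ι → C(X, ℝ))
    (hu : ∀ x y, (∀ i, u i x = u i y) → x = y) (g : C(X, ℝ)) :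
    ∃ c : Set ι, c.Countable ∧ ∀ x y, (∀ i ∈ c, u i x = u i y) → g x = g y := by
  have h1 : ∀ n : ℕ, ∃ t : Finset ι, {p : X × X | 1 / ((n : ℝ) + 1) ≤ |g p.1 - g p.2|} ⊆
      ⋃ i ∈ t, {p : X × X | u i p.1 ≠ u i p.2} := by
    intro n
    have hc : IsClosed {p : X × X | 1 / ((n : ℝ) + 1) ≤ |g p.1 - g p.2|} := by
      refine isClosed_le continuous_const ?_
      fun_prop
    refine hc.isCompact.elim_finite_subcover _ (fun i => ?_) ?_
    · refine isOpen_ne_fun ?_ ?_ <;> fun_prop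
    · rintro ⟨x, y⟩ hxy
      rw [mem_ofPred_eq] at hxy
      by_contra h
      simp only [mem_iUnion, mem_ofPred_eq, not_exists, not_not] at h
      have := hu x y h
      subst this
      simp only [sub_self, abs_zero] at hxy
      have : (0 : ℝ) < 1 / ((n : ℝ) + 1) := Nat.one_div_pos_of_nat
      linarith
  choose t ht using h1
  refine ⟨⋃ n, (t n : Set ι), countable_iUnion fun n => (t n).countable_toSet, ?_⟩
  intro x y hxy
  by_contra hne
  obtain ⟨n, hn⟩ := exists_nat_one_div_lt (abs_pos.2 (sub_ne_zero.2 hne))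
  have h2 := ht n (show (x, y) ∈ {p : X × X | 1 / ((n : ℝ) + 1) ≤ |g p.1 - g p.2|} from hn.le)
  simp only [mem_iUnion, mem_ofPred_eq] at h2
  obtain ⟨i, hi, hne'⟩ := h2
  exact hne' (hxy i (mem_iUnion.2 ⟨n, hi⟩))

/-- Finite nets. -/
theorem exists_net [CompactSpace X] (D : Set X) (hD : Dense D) (F : List C(X, ℝ)) (k : ℕ) :
    ∃ N : Finset X, (N : Set X) ⊆ D ∧ ∀ x, ∃ z ∈ N, ∀ g ∈ F, |g z - g x| < 1 / ((k : ℝ) + 1) := by
  classical
  have hopen : ∀ z : X, IsOpen {x | ∀ g ∈ F, |g z - g x| < 1 / ((k : ℝ) + 1)} := by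
    intro z
    have : {x | ∀ g ∈ F, |g z - g x| < 1 / ((k : ℝ) + 1)} =
        ⋂ g ∈ F.toFinset, {x | |g z - g x| < 1 / ((k : ℝ) + 1)} := by
      ext x
      simp
    rw [this]
    refine isOpen_biInter_finset fun g _ => isOpen_lt ?_ continuous_const
    fun_prop
  obtain ⟨t, ht⟩ := isCompact_univ.elim_finite_subcover
    (fun z : D => {x | ∀ g ∈ F, |g (z : X) - g x| < 1 / ((k : ℝ) + 1)}) (fun z => hopen z) (by
    intro x _
    have h1 := hopen x
    obtain ⟨z, hz, hzD⟩ := hD.inter_open_nonempty _ h1 ⟨x, fun g _ => by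
      rw [sub_self, abs_zero]; exact Nat.one_div_pos_of_nat⟩
    refine mem_iUnion.2 ⟨⟨z, hzD⟩, fun g hg => ?_⟩
    have := hz g hg
    rw [abs_sub_comm]
    exact this)
  refine ⟨t.image Subtype.val, ?_, ?_⟩
  · intro z hz
    simp only [Finset.coe_image, mem_image, Finset.mem_coe] at hz
    obtain ⟨w, _, rfl⟩ := hz
    exact w.2
  · intro x
    have hx := ht (mem_univ x)
    simp only [mem_iUnion] at hx
    obtain ⟨z, hz, hzx⟩ := hx
    exact ⟨z, Finset.mem_image_of_mem _ hz, hzx⟩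

/-- Approximation implies existence of exact representatives in the closure. -/
theorem ex_of_ap [CompactSpace X] (A : Set X) (B : Set C(X, ℝ)) (x : X)
    (hAP : ∀ F : Finset C(X, ℝ), (F : Set C(X, ℝ)) ⊆ B → ∀ k : ℕ, ∃ z ∈ A, ∀ g ∈ F,
      |g z - g x| < 1 / ((k : ℝ) + 1)) :
    ∃ z ∈ closure A, ∀ g ∈ B, g z = g x := by
  classical
  have h1 := (isClosed_closure (s := A)).isCompact.inter_iInter_nonempty
    (fun p : B × ℕ => {z | |(p.1 : C(X, ℝ)) z - (p.1 : C(X, ℝ)) x| ≤ 1 / ((p.2 : ℝ) + 1)})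
    (fun p => by
      refine isClosed_le ?_ continuous_const
      fun_prop) (by
    intro u
    obtain ⟨z, hzA, hz⟩ := hAP (u.image fun p => (p.1 : C(X, ℝ))) (by
      intro g hg
      simp only [Finset.coe_image, mem_image, Finset.mem_coe] at hg
      obtain ⟨p, _, rfl⟩ := hg
      exact p.1.2) (u.sup Prod.snd)
    refine ⟨z, subset_closure hzA, mem_iInter₂.2 fun p hp => ?_⟩
    have h2 := hz p.1 (Finset.mem_image_of_mem (fun p : B × ℕ => (p.1 : C(X, ℝ))) hp)
    exact h2.le.trans (one_div_succ_le (Finset.le_sup (f := Prod.snd) hp)))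
  obtain ⟨z, hz, hz'⟩ := h1
  refine ⟨z, hz, fun g hg => ?_⟩
  by_contra hne
  obtain ⟨n, hn⟩ := exists_nat_one_div_lt (abs_pos.2 (sub_ne_zero.2 hne))
  have h3 := mem_iInter.1 hz' (⟨g, hg⟩, n)
  rw [mem_ofPred_eq] at h3
  dsimp only at h3
  linarith

end Pool.Agent.H61.Sp
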