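import Pool.Agent.H61.SpSing
import Pool.Agent.H61.SpColor

set_option autoImplicit false

open Set Topology Filter
open scoped Cardinal

namespace Pool.Agent.H61.Sp

open Pool.Agent.H61.Clos

/-- Compact cleavable spaces are Corson compact. -/
theorem corson (κ : Cardinal.{0}) : ∀ (X : Type) [TopologicalSpace X] [CompactSpace X] [T2Space X],
    Splt X → ∀ D : Set X, Dense D → #D ≤ κ → CorsonOn (univ : Set X) := by
  classical
  induction κ using WellFoundedLT.induction with
  | ind κ ih =>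
    intro X _ _ _ hs D hD hDκ
    by_cases hc : κ ≤ 𝔠
    · have h1 := mk_closure_le_continuum hs D (hDκ.trans hc)
      rw [hD.closure_eq, Cardinal.mk_univ] at h1
      obtain ⟨F, hF⟩ := hs.inj_of_le h1
      exact ⟨F.Γ, F.f, F.hf.continuousOn, hF.injOn, fun x _ => F.countSupp x⟩
    · push Not at hc
      have hIH : ∀ A : Set X, #A < κ → CorsonOn (closure A) := by
        intro A hA
        have : CompactSpace (closure A) := isCompact_iff_compactSpace.1 isClosed_closure.isCompact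
        have h1 : Dense (Subtype.val ⁻¹' A : Set (closure A)) := by
          rw [Subtype.dense_iff, Subtype.image_preimage_coe, inter_eq_right.2 subset_closure]
        have h2 : #(Subtype.val ⁻¹' A : Set (closure A)) ≤ #A :=
          Cardinal.mk_preimage_of_injective _ _ Subtype.val_injective
        obtain ⟨Γ, φ, hφ1, hφ2, hφ3⟩ := ih #A hA (closure A)
          (hs.pull Subtype.val continuous_subtype_val Subtype.val_injective) _ h1 h2
        rw [continuousOn_univ] at hφ1
        rw [injOn_univ] at hφ2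
        refine ⟨Γ, fun x => if h : x ∈ closure A then φ ⟨x, h⟩ else 0, ?_, ?_, ?_⟩
        · rw [continuousOn_iff_continuous_domRestrict]
          convert hφ1 using 1
          funext x
          simp only [Set.domRestrict_apply, x.2, dif_pos]
        · intro x hx y hy hxy
          simp only [hx, hy, dif_pos] at hxy
          exact congrArg Subtype.val (hφ2 hxy)
        · intro x hx
          simp only [hx, dif_pos]
          exact hφ3 _ (mem_univ _)
      by_cases hreg : κ.IsRegular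
      · exact reg_case hs D hD κ hreg (Cardinal.aleph0_le_continuum.trans_lt hc) hDκ hIH
      · exact sing_case hs D hD κ hreg hc hDκ hIH

variable {X : Type} [TopologicalSpace X]

/-- Corson compact cleavable spaces are Eberlein compact. -/
theorem eberlein [CompactSpace X] [T2Space X] (hs : Splt X) (hc : CorsonOn (univ : Set X)) :
    ∃ F : CM X, Function.Injective F.f := by
  classical
  obtain ⟨Γ, φ, hφ1, hφ2, hφ3⟩ := hc
  rw [continuousOn_univ] at hφ1
  rw [injOn_univ] at hφ2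
  let π : Γ → C(X, ℝ) := fun γ => ⟨fun x => φ x γ, (continuous_apply γ).comp hφ1⟩
  obtain ⟨c, hc⟩ := exists_color Γ
  obtain ⟨F, hF⟩ := hs.color fun x => c {γ | φ x γ ≠ 0}
  have hπ : ∀ x y, (∀ γ, π γ x = π γ y) → x = y := fun x y h => hφ2 (funext h)
  choose d hd hd' using fun δ => determined π hπ (F.coord δ)
  obtain ⟨Φ, hΦc, -, hΦ⟩ := exists_op (univ : Set X) dense_univ
  let Ψ : X ⊕ C(X, ℝ) → Set (X ⊕ C(X, ℝ)) := Sum.elim
    (fun z => (fun γ => Sum.inr (π γ)) '' ({γ | φ z γ ≠ 0} ∪ ⋃ δ ∈ {δ | F.f z δ ≠ 0}, d δ))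
    fun _ => ∅
  have hΨc : ∀ w, (Ψ w).Countable := by
    rintro (z | g)
    · exact ((hφ3 z (mem_univ z)).union ((F.countSupp z).biUnion fun δ _ => hd δ)).image _
    · exact countable_empty
  let Φ' : List (X ⊕ C(X, ℝ)) → Set (X ⊕ C(X, ℝ)) := fun l => Φ l ∪ ⋃ w ∈ {w | w ∈ l}, Ψ w
  have hΦ'c : ∀ l, (Φ' l).Countable := fun l =>
    (hΦc l).union ((l.finite_toSet.countable).biUnion fun w _ => hΨc w)
  -- the fibres are small
  have hfib : ∀ x₀, #{y | F.f y = F.f x₀} ≤ 𝔠 := by
    intro x₀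
    let E := cl Φ' {Sum.inl x₀}
    have hE1 : Clo Φ' E := clo_cl Φ' _
    have hE2 : Clo Φ E := fun l hl => subset_union_left.trans (hE1 l hl)
    have hE3 : ∀ z ∈ XP E, Ψ (Sum.inl z) ⊆ E := by
      intro z hz w hw
      refine hE1 [Sum.inl z] (fun a ha => by rw [List.mem_singleton.1 ha]; exact hz) ?_
      exact Or.inr (mem_iUnion₂.2 ⟨Sum.inl z, by simp, hw⟩)
    have hx₀ : x₀ ∈ XP E := subset_cl Φ' _ rfl
    have hEc : #E ≤ ℵ₀ := by
      refine mk_cl_le hΦ'c _ _ le_rfl ?_
      simp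
    let G : Set Γ := {γ | π γ ∈ CP E}
    have hG1 : ∀ z ∈ XP E, ∀ γ, φ z γ ≠ 0 → γ ∈ G := fun z hz γ hγ =>
      hE3 z hz ⟨γ, Or.inl hγ, rfl⟩
    have hG2 : ∀ z ∈ XP E, ∀ δ, F.f z δ ≠ 0 → d δ ⊆ G := fun z hz δ hδ γ hγ =>
      hE3 z hz ⟨γ, Or.inr (mem_iUnion₂.2 ⟨δ, hδ, hγ⟩), rfl⟩
    have hG3 : ∀ z ∈ closure (XP E), ∀ γ, γ ∉ G → φ z γ = 0 := by
      intro z hz γ hγ
      have h1 : closure (XP E) ⊆ {x | π γ x = 0} := by
        refine closure_minimal (fun x hx => ?_) (isClosed_eq (π γ).continuous continuous_const)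
        by_contra h
        exact hγ (hG1 x hx γ h)
      exact h1 hz
    have key : ∀ y, F.f y = F.f x₀ → ∀ γ, γ ∉ G → φ y γ = 0 := by
      intro y hy
      obtain ⟨z, hz, hzy⟩ := hΦ E hE2 y
      have h1 : F.f z = F.f y := by
        funext δ
        by_cases hδ : ∃ w ∈ XP E, F.f w δ ≠ 0
        · obtain ⟨w, hw, hwδ⟩ := hδ
          exact hd' δ z y fun γ hγ => hzy _ (hG2 w hw δ hwδ hγ)
        · push Not at hδ
          rw [F.eq_zero_of_closure _ δ hδ z hz, hy, hδ x₀ hx₀]
      have h2 := hF z y h1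
      by_contra hcon
      push Not at hcon
      obtain ⟨γ, hγG, hγ⟩ := hcon
      refine hc {γ | φ y γ ≠ 0} (hφ3 y (mem_univ y)) {γ | φ z γ ≠ 0} ⟨?_, ?_⟩ h2
      · intro γ' hγ'
        by_cases h : γ' ∈ G
        · have h3 : φ z γ' = φ y γ' := hzy _ h
          rw [mem_ofPred_eq, ← h3]
          exact hγ'
        · exact absurd (hG3 z hz γ' h) hγ'
      · intro h
        exact (h hγ) (hG3 z hz γ hγG)
    let ρ : {y | F.f y = F.f x₀} → CP E → ℝ := fun y g => (g : C(X, ℝ)) y
    have hρ : Function.Injective ρ := by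
      intro y y' h
      refine Subtype.ext (hφ2 ?_)
      funext γ
      by_cases hγ : γ ∈ G
      · exact congrFun h ⟨π γ, hγ⟩
      · rw [key y y.2 γ hγ, key y' y'.2 γ hγ]
    refine (Cardinal.mk_le_of_injective hρ).trans ?_
    have h4 : #(CP E) ≤ ℵ₀ := (Cardinal.mk_preimage_of_injective _ _ Sum.inr_injective).trans hEc
    have h5 : #(CP E → ℝ) = 𝔠 ^ #(CP E) := by simp [Cardinal.mk_real]
    rw [h5]
    refine (Cardinal.power_le_power_left Cardinal.continuum_ne_zero h4).trans ?_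
    simp
  have h6 : ∀ v : F.Γ → ℝ, ∃ j : X → ℕ → Prop, ∀ x y, F.f x = v → F.f y = v → j x = j y → x = y := by
    intro v
    by_cases hv : ∃ x₀, F.f x₀ = v
    · obtain ⟨x₀, rfl⟩ := hv
      obtain ⟨j, hj⟩ := exists_inj_of_le (hfib x₀)
      refine ⟨fun x => if h : F.f x = F.f x₀ then j ⟨x, h⟩ else fun _ => True,
        fun x y hx hy hxy => ?_⟩
      simp only [hx, hy, dif_pos] at hxy
      exact congrArg Subtype.val (hj hxy)
    · exact ⟨fun _ _ => True, fun x y hx _ _ => absurd ⟨x, hx⟩ hv⟩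
  choose j hj using h6
  obtain ⟨G, hG⟩ := hs.color fun x => j (F.f x) x
  refine ⟨F.add G, fun x y hxy => ?_⟩
  obtain ⟨h7, h8⟩ := CM.add_eq hxy
  have h9 := hG x y h8
  rw [h7] at h9
  exact hj (F.f y) x y h7 rfl h9

theorem main (X : Type) [TopologicalSpace X] [T35Space X] (hp : Pc X) (hs : Splt X) :
    CompactSpace X ∧ ∃ F : CM X, IsEmbedding F.f := by
  have hX : CompactSpace X := compact_of_splt hp hs
  have hc : CorsonOn (univ : Set X) := corson #(univ : Set X) X hs univ dense_univ le_rfl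
  obtain ⟨F, hF⟩ := eberlein hs hc
  exact ⟨hX, F, hp.embedding F hF⟩

end Pool.Agent.H61.Sp
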