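import Pool.Agent.H61.SpComb

set_option autoImplicit false

open Set Topology Filter
open scoped Cardinal

namespace Pool.Agent.H61.Sp

open Pool.Agent.H61.Clos

variable {X : Type} [TopologicalSpace X]

/-- The points in `E`. -/
def XP (E : Set (X ⊕ C(X, ℝ))) : Set X := Sum.inl ⁻¹' E

/-- The functions in `E`. -/
def CP (E : Set (X ⊕ C(X, ℝ))) : Set C(X, ℝ) := Sum.inr ⁻¹' E

theorem XP_mono {E E' : Set (X ⊕ C(X, ℝ))} (h : E ⊆ E') : XP E ⊆ XP E' := preimage_mono h

theorem CP_mono {E E' : Set (X ⊕ C(X, ℝ))} (h : E ⊆ E') : CP E ⊆ CP E' := preimage_mono h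

theorem XP_iUnion {ι : Type} (T : Set ι) (E : ι → Set (X ⊕ C(X, ℝ))) :
    XP (⋃ i ∈ T, E i) = ⋃ i ∈ T, XP (E i) := by
  simp [XP]

theorem CP_iUnion {ι : Type} (T : Set ι) (E : ι → Set (X ⊕ C(X, ℝ))) :
    CP (⋃ i ∈ T, E i) = ⋃ i ∈ T, CP (E i) := by
  simp [CP]

theorem mk_XP_le (E : Set (X ⊕ C(X, ℝ))) : #(XP E) ≤ #E :=
  Cardinal.mk_preimage_of_injective _ _ Sum.inl_injective

/-- The operation which adds finite nets. -/
theorem exists_op [CompactSpace X] (D : Set X) (hD : Dense D) :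
    ∃ Φ : List (X ⊕ C(X, ℝ)) → Set (X ⊕ C(X, ℝ)), (∀ l, (Φ l).Countable) ∧
      (∀ l, Φ l ⊆ Sum.inl '' D) ∧
      ∀ E, Clo Φ E → ∀ x, ∃ z ∈ closure (XP E), ∀ g ∈ CP E, g z = g x := by
  classical
  choose N hND hN using exists_net D hD
  refine ⟨fun l => ⋃ k : ℕ, Sum.inl '' (N (l.filterMap Sum.getRight?) k : Set X), ?_, ?_, ?_⟩
  · intro l
    exact countable_iUnion fun k => ((N _ k).countable_toSet).image _
  · intro l
    exact iUnion_subset fun k => image_mono (hND _ k)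
  · intro E hE x
    refine ex_of_ap (XP E) (CP E) x fun F hF k => ?_
    obtain ⟨z, hz, hzx⟩ := hN F.toList k x
    refine ⟨z, ?_, fun g hg => hzx g (Finset.mem_toList.2 hg)⟩
    have h1 : (F.toList.map (Sum.inr : C(X, ℝ) → X ⊕ C(X, ℝ))).filterMap Sum.getRight? =
        F.toList := by
      rw [List.filterMap_map]
      have : (Sum.getRight? ∘ (Sum.inr : C(X, ℝ) → X ⊕ C(X, ℝ))) = some := by
        funext g
        rfl
      rw [this, List.filterMap_some]
    have h2 := hE (F.toList.map Sum.inr) (by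
      intro a ha
      obtain ⟨g, hg, rfl⟩ := List.mem_map.1 ha
      exact hF (Finset.mem_coe.2 (Finset.mem_toList.1 hg)))
    refine h2 (mem_iUnion.2 ⟨k, z, ?_, rfl⟩)
    rw [h1]
    exact hz

theorem exists_enum {α K : Type} (S : Set α) (hS : S.Nonempty) (h : #S ≤ #K) :
    ∃ e : K → α, range e = S := by
  obtain ⟨f⟩ := h
  have : Nonempty S := hS.to_subtype
  refine ⟨fun k => (Function.invFun f k : S), ?_⟩
  ext a
  constructor
  · rintro ⟨k, rfl⟩
    exact (Function.invFun f k).2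
  · intro ha
    exact ⟨f ⟨a, ha⟩, congrArg Subtype.val (Function.leftInverse_invFun f.injective ⟨a, ha⟩)⟩

/-- A subset with a dense part of the ground set and a separating part is good. -/
theorem good_of_dense (A : Set X) (B : Set C(X, ℝ)) (hA : Dense A)
    (hB : ∀ x y, (∀ g ∈ B, g x = g y) → x = y) : Good A B :=
  ⟨fun x => ⟨x, hA x, fun _ _ => rfl⟩, fun z _ z' _ h => hB z z' h⟩

end Pool.Agent.H61.Sp
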