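import Pool.Agent.H61.SpBase

set_option autoImplicit false

open Set Topology Filter
open scoped Cardinal

namespace Pool.Agent.H61.Sp

variable {X Y : Type} [TopologicalSpace X] [TopologicalSpace Y]

/-- Pseudocompactness. -/
def Pc (X : Type) [TopologicalSpace X] : Prop :=
  ∀ f : X → ℝ, Continuous f → ∃ M : ℝ, ∀ x, |f x| ≤ M

/-- In a pseudocompact Tychonoff space a sequence of nonempty open sets accumulates. -/
theorem Pc.accum [CompletelyRegularSpace X] (hp : Pc X) (U : ℕ → Set X) (hU : ∀ n, IsOpen (U n))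
    (hne : ∀ n, (U n).Nonempty) :
    ∃ x, ∀ W, IsOpen W → x ∈ W → {n | (U n ∩ W).Nonempty}.Infinite := by
  by_contra hcon
  push Not at hcon
  have hlf : LocallyFinite U := by
    intro x
    obtain ⟨W, hW, hxW, hfin⟩ := hcon x
    exact ⟨W, hW.mem_nhds hxW, by simpa using hfin⟩
  choose p hp' using hne
  have h1 : ∀ n : ℕ, ∃ g : X → unitInterval, Continuous g ∧ g (p n) = 0 ∧ EqOn g 1 (U n)ᶜ :=
    fun n => CompletelyRegularSpace.completely_regular (p n) (U n)ᶜ (hU n).isClosed_compl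
      (fun h => h (hp' n))
  choose g hgc hg0 hg1 using h1
  have hsupp : ∀ n : ℕ, (Function.support fun x => (n : ℝ) * (1 - (g n x : ℝ))) ⊆ U n := by
    intro n x hx
    by_contra hxU
    apply hx
    have : g n x = 1 := hg1 n hxU
    simp [this]
  have hcont : Continuous fun x => ∑ᶠ n : ℕ, (n : ℝ) * (1 - (g n x : ℝ)) := by
    refine continuous_finsum (fun n => ?_) ?_
    · have := hgc n
      fun_prop
    · exact hlf.subset hsupp
  obtain ⟨M, hM⟩ := hp _ hcont
  obtain ⟨n, hn⟩ := exists_nat_gt M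
  have h2 : (n : ℝ) * (1 - (g n (p n) : ℝ)) ≤ ∑ᶠ k : ℕ, (k : ℝ) * (1 - (g k (p n) : ℝ)) := by
    refine single_le_finsum (f := fun k : ℕ => (k : ℝ) * (1 - (g k (p n) : ℝ))) n ?_ ?_
    · refine (hlf.point_finite (p n)).subset ?_
      intro k hk
      exact hsupp k hk
    · intro k
      have : (g k (p n) : ℝ) ≤ 1 := (g k (p n)).2.2
      exact mul_nonneg (Nat.cast_nonneg k) (by linarith)
  rw [hg0 n] at h2
  have h3 := (le_abs_self _).trans (hM (p n))
  simp only [Set.Icc.coe_zero, sub_zero, mul_one] at h2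
  linarith

/-- The Baire category step. -/
theorem baire_step {Γ : Type} (L : Set (Γ → ℝ)) (hL : IsCompact L)
    (h0 : ∀ y ∈ L, ∀ ε : ℝ, 0 < ε → Set.Finite {γ : Γ | ε ≤ |y γ|}) (q : Γ → ℝ) (hq : q ∈ L)
    (S : Finset Γ) (ε : ℝ) (hε : 0 < ε) :
    ∃ (V : Set (Γ → ℝ)) (T : Finset Γ), IsOpen V ∧ (V ∩ L).Nonempty ∧ Disjoint T S ∧
      ∀ y ∈ V ∩ L, ∀ γ, γ ∉ T → |y γ - q γ| ≤ ε := by
  classical
  have : CompactSpace L := isCompact_iff_compactSpace.1 hL
  have hfin : ∀ y ∈ L, {γ | ε < |y γ - q γ|}.Finite := by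
    intro y hy
    refine ((h0 y hy _ (half_pos hε)).union (h0 q hq _ (half_pos hε))).subset ?_
    intro γ hγ
    rw [mem_ofPred_eq] at hγ
    by_contra hcon
    simp only [mem_union, mem_ofPred_eq, not_or, not_le] at hcon
    have := abs_sub (y γ) (q γ)
    linarith [hcon.1, hcon.2]
  have hcoord : ∀ γ, Continuous fun y : L => |(y : Γ → ℝ) γ - q γ| := by
    intro γ
    have : Continuous fun y : L => (y : Γ → ℝ) γ := (continuous_apply γ).comp continuous_subtype_val
    exact (this.sub continuous_const).abs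
  let C : ℕ → Set L := fun m => {y | ∀ T : Finset Γ, m < T.card → ∃ γ ∈ T, |(y : Γ → ℝ) γ - q γ| ≤ ε}
  have hCc : ∀ m, IsClosed (C m) := by
    intro m
    have : C m = ⋂ T : Finset Γ, ⋂ _ : m < T.card, ⋃ γ ∈ T, {y : L | |(y : Γ → ℝ) γ - q γ| ≤ ε} := by
      ext y
      simp [C]
    rw [this]
    refine isClosed_iInter fun T => isClosed_iInter fun _ => ?_
    refine isClosed_biUnion_finset fun γ _ => ?_
    exact isClosed_le (hcoord γ) continuous_const
  have hCu : ⋃ m, C m = univ := by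
    refine eq_univ_of_forall fun y => ?_
    refine mem_iUnion.2 ⟨(hfin y y.2).toFinset.card, fun T hT => ?_⟩
    by_contra hcon
    push Not at hcon
    refine absurd (Finset.card_le_card (s := T) (t := (hfin y y.2).toFinset) ?_) (not_le.2 hT)
    intro γ hγ
    simpa using hcon γ hγ
  have hdense := dense_iUnion_interior_of_closed hCc hCu
  let W : Set L := {y | ∀ γ ∈ S, |(y : Γ → ℝ) γ - q γ| < ε}
  have hWo : IsOpen W := by
    have : W = ⋂ γ ∈ S, {y : L | |(y : Γ → ℝ) γ - q γ| < ε} := by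
      ext y
      simp [W]
    rw [this]
    exact isOpen_biInter_finset fun γ _ => isOpen_lt (hcoord γ) continuous_const
  have hWq : (⟨q, hq⟩ : L) ∈ W := by
    intro γ _
    simpa using hε
  obtain ⟨y1, hy1W, hy1⟩ := hdense.inter_open_nonempty W hWo ⟨_, hWq⟩
  obtain ⟨m, hm⟩ := mem_iUnion.1 hy1
  let O : Set L := W ∩ interior (C m)
  have hOo : IsOpen O := hWo.inter isOpen_interior
  have hOne : O.Nonempty := ⟨y1, hy1W, hm⟩
  let N : L → ℕ := fun y => (hfin y y.2).toFinset.card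
  have hNm : ∀ y ∈ O, N y ≤ m := by
    intro y hy
    by_contra hcon
    push Not at hcon
    obtain ⟨γ, hγ, hγ'⟩ := (interior_subset hy.2 : y ∈ C m) _ hcon
    have : ε < |(y : Γ → ℝ) γ - q γ| := by simpa using hγ
    linarith
  obtain ⟨y0, hy0, hmax⟩ : ∃ y0 ∈ O, ∀ y ∈ O, N y ≤ N y0 := by
    have hb : BddAbove (N '' O) := ⟨m, by rintro _ ⟨y, hy, rfl⟩; exact hNm y hy⟩
    obtain ⟨y0, hy0, hy0'⟩ := Nat.sSup_mem (hOne.image N) hb
    exact ⟨y0, hy0, fun y hy => by rw [hy0']; exact le_csSup hb ⟨y, hy, rfl⟩⟩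
  let T : Finset Γ := (hfin y0 y0.2).toFinset
  let V' : Set L := O ∩ {y | ∀ γ ∈ T, ε < |(y : Γ → ℝ) γ - q γ|}
  have hV'o : IsOpen V' := by
    refine hOo.inter ?_
    have : {y : L | ∀ γ ∈ T, ε < |(y : Γ → ℝ) γ - q γ|} =
        ⋂ γ ∈ T, {y : L | ε < |(y : Γ → ℝ) γ - q γ|} := by
      ext y
      simp
    rw [this]
    exact isOpen_biInter_finset fun γ _ => isOpen_lt continuous_const (hcoord γ)
  obtain ⟨V, hVo, hVV'⟩ := isOpen_induced_iff.1 hV'o
  refine ⟨V, T, hVo, ⟨y0, ?_, y0.2⟩, ?_, ?_⟩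
  · have : y0 ∈ V' := ⟨hy0, fun γ hγ => by simpa [T] using hγ⟩
    rw [← hVV'] at this
    exact this
  · rw [Finset.disjoint_left]
    intro γ hγT hγS
    have h1 : ε < |(y0 : Γ → ℝ) γ - q γ| := by simpa [T] using hγT
    have h2 := hy0.1 γ hγS
    linarith
  · rintro y ⟨hyV, hyL⟩ γ hγ
    have hy' : (⟨y, hyL⟩ : L) ∈ V' := by
      rw [← hVV']
      exact hyV
    by_contra hcon
    push Not at hcon
    have hsub : T ⊆ (hfin y hyL).toFinset := by
      intro δ hδ
      simpa using hy'.2 δ hδ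
    have hcard := hmax _ hy'.1
    have heq := Finset.eq_of_subset_of_card_le hsub hcard
    apply hγ
    rw [heq]
    simpa using hcon

/-- A Preiss-Simon type lemma. -/
theorem Pc.ps [CompletelyRegularSpace X] (hp : Pc X) (F : CM X) (U : Set X) (hU : IsOpen U)
    (q : F.Γ → ℝ) (hq : q ∈ closure (F.f '' U)) : ∃ x ∈ closure U, F.f x = q := by
  classical
  by_contra hcon
  push Not at hcon
  have hLK : closure (F.f '' U) ⊆ F.K := by
    refine closure_minimal ?_ F.hK.isClosed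
    rintro _ ⟨x, _, rfl⟩
    exact F.hfK x
  have hL : IsCompact (closure (F.f '' U)) := F.hK.of_isClosed_subset isClosed_closure hLK
  have hstep : ∀ (S : Finset F.Γ) (n : ℕ), ∃ (V : Set (F.Γ → ℝ)) (T : Finset F.Γ), IsOpen V ∧
      (V ∩ closure (F.f '' U)).Nonempty ∧ Disjoint T S ∧
      ∀ y ∈ V ∩ closure (F.f '' U), ∀ γ, γ ∉ T → |y γ - q γ| ≤ 1 / ((n : ℝ) + 1) := fun S n =>
    baire_step _ hL (fun y hy => F.h0 y (hLK hy)) q hq S _ Nat.one_div_pos_of_nat
  choose V T hVo hVne hTd hVT using hstep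
  let S : ℕ → Finset F.Γ := fun n => Nat.rec ∅ (fun n s => s ∪ T s n) n
  have hS : ∀ n, S (n + 1) = S n ∪ T (S n) n := fun n => rfl
  have hSm : Monotone S := monotone_nat_of_le_succ fun n => by
    rw [hS]; exact Finset.subset_union_left
  let G : ℕ → Set X := fun n => U ∩ F.f ⁻¹' V (S n) n
  have hGo : ∀ n, IsOpen (G n) := fun n => hU.inter ((hVo _ _).preimage F.hf)
  have hGne : ∀ n, (G n).Nonempty := by
    intro n
    obtain ⟨y, hyV, hyL⟩ := hVne (S n) n
    obtain ⟨z, hzV, x, hx, rfl⟩ := mem_closure_iff.1 hyL _ (hVo (S n) n) hyV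
    exact ⟨x, hx, hzV⟩
  obtain ⟨x, hx⟩ := hp.accum G hGo hGne
  have hxU : x ∈ closure U := by
    by_contra h
    have h1 := hx (closure U)ᶜ isClosed_closure.isOpen_compl h
    refine h1 ?_
    convert finite_empty
    ext n
    simp only [mem_ofPred_eq, mem_empty_iff_false, iff_false, not_nonempty_iff_eq_empty]
    refine disjoint_iff_inter_eq_empty.1 (disjoint_left.2 ?_)
    intro z hz hz'
    exact hz' (subset_closure hz.1)
  have hne : ∃ γ, F.f x γ ≠ q γ := by
    by_contra h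
    push Not at h
    exact hcon x hxU (funext h)
  obtain ⟨γ, hγ⟩ := hne
  have hδ : 0 < |F.f x γ - q γ| := abs_pos.2 (sub_ne_zero.2 hγ)
  set δ := |F.f x γ - q γ| with hδdef
  have hWo : IsOpen {x' | δ / 2 < |F.f x' γ - q γ|} := by
    have := F.contCoord γ
    exact isOpen_lt continuous_const (by fun_prop)
  have hinf := hx _ hWo (by rw [mem_ofPred_eq, ← hδdef]; linarith)
  refine hinf ?_
  obtain ⟨N, hN⟩ := exists_nat_one_div_lt (half_pos hδ)
  have hsub : Set.Subsingleton {n | γ ∈ T (S n) n} := by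
    intro a ha b hb
    rw [mem_ofPred_eq] at ha hb
    by_contra hab
    wlog hlt : a < b generalizing a b
    · exact this hb ha (Ne.symm hab) (lt_of_le_of_ne (not_lt.1 hlt) (Ne.symm hab))
    have h1 : γ ∈ S (a + 1) := by
      rw [hS]
      exact Finset.mem_union_right _ ha
    exact Finset.disjoint_left.1 (hTd (S b) b) hb (hSm (Nat.succ_le_of_lt hlt) h1)
  refine ((Set.finite_lt_nat N).union hsub.finite).subset ?_
  rintro n ⟨x', ⟨hx'U, hx'V⟩, hx'W⟩
  by_contra hn
  simp only [mem_union, mem_ofPred_eq, not_or, not_lt] at hn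
  have h1 := hVT (S n) n (F.f x') ⟨hx'V, subset_closure ⟨x', hx'U, rfl⟩⟩ γ hn.2
  have h2 : 1 / ((n : ℝ) + 1) ≤ 1 / ((N : ℝ) + 1) := by
    apply one_div_le_one_div_of_le
    · positivity
    · have : (N : ℝ) ≤ n := by exact_mod_cast hn.1
      linarith
  rw [mem_ofPred_eq] at hx'W
  linarith

/-- If the fibre of `x` is a singleton then preimages form a neighbourhood base at `x`. -/
theorem Pc.base [T35Space X] (hp : Pc X) (F : CM X) (x : X) (hx : ∀ y, F.f y = F.f x → y = x)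
    (W : Set X) (hW : W ∈ 𝓝 x) : ∃ V ∈ 𝓝 (F.f x), F.f ⁻¹' V ⊆ W := by
  obtain ⟨C, hC, hCc, hCW⟩ := exists_mem_nhds_isClosed_subset hW
  have h1 : F.f x ∉ closure (F.f '' Cᶜ) := by
    intro h
    obtain ⟨y, hy, hyx⟩ := hp.ps F Cᶜ hCc.isOpen_compl _ h
    have := hx y hyx
    subst this
    rw [closure_compl] at hy
    exact hy (mem_interior_iff_mem_nhds.2 hC)
  refine ⟨(closure (F.f '' Cᶜ))ᶜ, isClosed_closure.isOpen_compl.mem_nhds h1, ?_⟩
  intro y hy
  by_contra hyW
  exact hy (subset_closure ⟨y, fun h => hyW (hCW h), rfl⟩)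

theorem Pc.embedding [T35Space X] (hp : Pc X) (F : CM X) (hF : Function.Injective F.f) :
    IsEmbedding F.f := by
  refine ⟨⟨?_⟩, hF⟩
  refine TopologicalSpace.ext_nhds fun x => ?_
  rw [nhds_induced]
  refine le_antisymm (F.hf.tendsto x).le_comap ?_
  intro W hW
  obtain ⟨V, hV, hVW⟩ := hp.base F x (fun y h => hF h) W hW
  exact ⟨V, hV, hVW⟩

theorem Pc.compact_of_inj [T35Space X] (hp : Pc X) (F : CM X) (hF : Function.Injective F.f) :
    CompactSpace X := by
  rw [← isCompact_univ_iff, (hp.embedding F hF).isCompact_iff, image_univ]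
  have h1 : closure (range F.f) ⊆ range F.f := by
    intro q hq
    rw [← image_univ] at hq
    obtain ⟨x, _, hx⟩ := hp.ps F univ isOpen_univ q hq
    exact ⟨x, hx⟩
  have h2 : IsClosed (range F.f) := isClosed_of_closure_subset h1
  refine F.hK.of_isClosed_subset h2 ?_
  rintro _ ⟨x, rfl⟩
  exact F.hfK x

end Pool.Agent.H61.Sp
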