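import Pool.Agent.H61.SpOm

set_option autoImplicit false

open Set Topology Filter
open scoped Cardinal

namespace Pool.Agent.H61.Sp

open Pool.Agent.H61.Clos

section order

variable {κ : Cardinal.{0}}

theorem exists_ub (S : Set κ.ord.ToType) (h : #S < κ.ord.cof) : ∃ a, ∀ b ∈ S, b < a := by
  by_contra hcon
  push Not at hcon
  have h1 : IsCofinal S := hcon
  have h2 := Order.cof_le h1
  rw [Ordinal.cof_toType] at h2
  exact absurd h (not_lt.2 h2)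

theorem mk_Iio_lt' (a : κ.ord.ToType) : #(Iio a) < κ := by
  have h1 := Cardinal.mk_Iio_lt a (by simp)
  rwa [Cardinal.mk_ord_toType] at h1

theorem mk_Iic_lt (hκ : ℵ₀ ≤ κ) (a : κ.ord.ToType) : #(Iic a) < κ := by
  have h1 : #(Iic a) ≤ #(Iio a) + 1 := by
    have : Iic a = Iio a ∪ {a} := by
      ext b
      simp [le_iff_lt_or_eq]
    rw [this]
    refine (Cardinal.mk_union_le _ _).trans ?_
    simp
  refine h1.trans_lt ?_
  exact Cardinal.add_lt_of_lt hκ (mk_Iio_lt' a)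
    (Cardinal.one_lt_aleph0.trans_le hκ)

theorem exists_h (hκ : κ.IsRegular) (hκ' : ℵ₀ < κ) {Ω : Type} (e : κ.ord.ToType → Ω)
    (Φ : List Ω → Set Ω) (hΦc : ∀ l, (Φ l).Countable) (hΦe : ∀ l, Φ l ⊆ range e) :
    ∃ h : κ.ord.ToType → κ.ord.ToType, ∀ ξ, (∃ η, η < ξ) → (∀ η < ξ, h η < ξ) →
      Clo Φ (e '' Iio ξ) := by
  classical
  have hK : Nonempty κ.ord.ToType := by
    rw [← Cardinal.mk_ne_zero_iff, Cardinal.mk_ord_toType]
    exact (Cardinal.aleph0_pos.trans hκ').ne'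
  have hs : ∀ w, ∃ η, w ∈ range e → e η = w := by
    intro w
    by_cases hw : w ∈ range e
    · obtain ⟨η, hη⟩ := hw
      exact ⟨η, fun _ => hη⟩
    · exact ⟨hK.some, fun h => absurd h hw⟩
  choose s hs using hs
  have hB : ∀ η : κ.ord.ToType, ∃ a, ∀ b ∈ ⋃ l : List (Iic η), s '' Φ ((l.map Subtype.val).map e),
      b < a := by
    intro η
    refine exists_ub _ ?_
    rw [hκ.cof_ord]
    refine (Cardinal.mk_iUnion_le_sum_mk).trans_lt ?_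
    have h1 : ∀ l : List (Iic η), #(s '' Φ ((l.map Subtype.val).map e)) ≤ ℵ₀ := fun l =>
      Cardinal.le_aleph0_iff_set_countable.2 ((hΦc _).image _)
    refine (Cardinal.sum_le_sum _ (fun _ => ℵ₀) h1).trans_lt ?_
    rw [Cardinal.sum_const]
    simp only [Cardinal.lift_id]
    refine Cardinal.mul_lt_of_lt hκ'.le ?_ hκ'
    refine (Cardinal.mk_list_le_max _).trans_lt (max_lt hκ' (mk_Iic_lt hκ'.le η))
  choose h hh using hB
  refine ⟨h, fun ξ hne hξ l hl => ?_⟩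
  have h2 : l ∈ range (List.map (fun η : Iio ξ => e η)) := by
    rw [Set.range_list_map]
    intro a ha
    obtain ⟨η, hη, rfl⟩ := hl a ha
    exact ⟨⟨η, hη⟩, rfl⟩
  obtain ⟨l', rfl⟩ := h2
  obtain ⟨η, hηξ, hη⟩ : ∃ η < ξ, ∀ z ∈ l', (z : κ.ord.ToType) ≤ η := by
    clear hl
    induction l' with
    | nil =>
      obtain ⟨η, hη⟩ := hne
      exact ⟨η, hη, by simp⟩
    | cons a l ih =>
      obtain ⟨η, hη, h3⟩ := ih
      refine ⟨max a η, max_lt a.2 hη, ?_⟩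
      intro z hz
      rcases List.mem_cons.1 hz with rfl | hz
      · exact le_max_left _ _
      · exact (h3 z hz).trans (le_max_right _ _)
  have h4 : l'.map Subtype.val ∈ range (List.map (Subtype.val : Iic η → κ.ord.ToType)) := by
    rw [Set.range_list_map_coe]
    intro z hz
    obtain ⟨z', hz', rfl⟩ := List.mem_map.1 hz
    exact hη z' hz'
  obtain ⟨l'', hl''⟩ := h4
  intro w hw
  have h5 : (l'.map fun η : Iio ξ => e η) = (l''.map Subtype.val).map e := by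
    rw [hl'', List.map_map]
    rfl
  rw [h5] at hw
  have h6 := hh η (s w) (mem_iUnion.2 ⟨l'', w, hw, rfl⟩)
  exact ⟨s w, h6.trans (hξ η hηξ), hs w (hΦe _ hw)⟩

theorem diag (hκ : κ.IsRegular) (H : κ.ord.ToType → κ.ord.ToType → κ.ord.ToType) :
    ∃ h : κ.ord.ToType → κ.ord.ToType, ∀ ξ, (∀ η < ξ, h η < ξ) →
      ∀ ζ < ξ, ∀ η < ξ, H ζ η < ξ := by
  have hB : ∀ η : κ.ord.ToType, ∃ a, ∀ b ∈ image2 H (Iic η) (Iic η), b < a := by
    intro η
    refine exists_ub _ ?_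
    rw [hκ.cof_ord]
    refine (Cardinal.mk_image2_le).trans_lt ?_
    exact Cardinal.mul_lt_of_lt hκ.aleph0_le (mk_Iic_lt hκ.aleph0_le η) (mk_Iic_lt hκ.aleph0_le η)
  choose h hh using hB
  refine ⟨h, fun ξ hξ ζ hζ η hη => ?_⟩
  exact (hh (max ζ η) _ ⟨ζ, mem_Iic.2 (le_max_left ζ η), η, mem_Iic.2 (le_max_right ζ η), rfl⟩).trans
    (hξ _ (max_lt hζ hη))

theorem exists_closed_gt (hκ : κ.IsRegular) (hκ' : ℵ₀ < κ) (h : κ.ord.ToType → κ.ord.ToType)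
    (i : κ.ord.ToType) : ∃ ξ, i < ξ ∧ ∀ η < ξ, h η < ξ := by
  have hB : ∀ η : κ.ord.ToType, ∃ a, ∀ b ∈ insert η (h '' (Iic η)), b < a := by
    intro η
    refine exists_ub _ ?_
    rw [hκ.cof_ord]
    refine (Cardinal.mk_insert_le).trans_lt ?_
    exact Cardinal.add_lt_of_lt hκ.aleph0_le ((Cardinal.mk_image_le).trans_lt
      (mk_Iic_lt hκ.aleph0_le η)) (Cardinal.one_lt_aleph0.trans hκ')
  choose f hf using hB
  let a : ℕ → κ.ord.ToType := fun n => f^[n] i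
  have ha : ∀ n, a (n + 1) = f (a n) := fun n => Function.iterate_succ_apply' f n i
  have hub : ∃ b, ∀ n, a n < b := by
    obtain ⟨b, hb⟩ := exists_ub (range a) (by
      rw [hκ.cof_ord]
      exact (Cardinal.le_aleph0_iff_set_countable.2 (countable_range a)).trans_lt hκ')
    exact ⟨b, fun n => hb _ ⟨n, rfl⟩⟩
  let ξ := WellFounded.min (wellFounded_lt (α := κ.ord.ToType)) {b | ∀ n, a n < b} hub
  have hξ : ∀ n, a n < ξ := WellFounded.min_mem (wellFounded_lt (α := κ.ord.ToType)) _ hub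
  refine ⟨ξ, hξ 0, fun η hη => ?_⟩
  have h1 : ¬ ∀ n, a n < η := fun h' =>
    WellFounded.not_lt_min (wellFounded_lt (α := κ.ord.ToType)) _
      (show η ∈ {b | ∀ n, a n < b} from h') hη
  push Not at h1
  obtain ⟨n, hn⟩ := h1
  refine lt_trans ?_ (hξ (n + 1))
  rw [ha]
  exact hf (a n) _ (mem_insert_of_mem _ ⟨η, hn, rfl⟩)

end order

variable {X : Type} [TopologicalSpace X]

theorem eq_Iio {α : Type} [LinearOrder α] [WellFoundedLT α] (T : Set α)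
    (hT : ∀ i ∈ T, ∀ j, j ≤ i → j ∈ T) (hne : T ≠ univ) : ∃ ξ, T = Iio ξ := by
  have h1 : (Tᶜ).Nonempty := by
    rw [nonempty_compl]
    exact hne
  refine ⟨WellFounded.min (wellFounded_lt (α := α)) Tᶜ h1, ?_⟩
  ext η
  constructor
  · intro hη
    by_contra hcon
    rw [mem_Iio, not_lt] at hcon
    exact WellFounded.min_mem (wellFounded_lt (α := α)) Tᶜ h1 (hT η hη _ hcon)
  · intro hη
    by_contra hcon
    exact WellFounded.not_lt_min (wellFounded_lt (α := α)) Tᶜ hcon hη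

/-- Closing off for one subset. -/
theorem exists_h_set [CompactSpace X] (hs : Splt X) {κ : Cardinal.{0}} (hκ : κ.IsRegular)
    (hκ' : ℵ₀ < κ) (e : κ.ord.ToType → X ⊕ C(X, ℝ)) (C₀ : Set C(X, ℝ))
    (hC₀ : Sum.inr '' C₀ ⊆ range e) (hsep : ∀ x y, (∀ g ∈ C₀, g x = g y) → x = y) (A : Set X) :
    ∃ h : κ.ord.ToType → κ.ord.ToType, ∀ ξ, (∃ η, η < ξ) → (∀ η < ξ, h η < ξ) →
      ∀ x ∈ closure (XP (e '' Iio ξ)), ∀ y ∈ closure (XP (e '' Iio ξ)),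
        (∀ g ∈ CP (e '' Iio ξ), g x = g y) → (x ∈ A ↔ y ∈ A) := by
  obtain ⟨F, hF⟩ := hs A
  choose c hc hc' using fun γ => determined (fun g : C₀ => (g : C(X, ℝ)))
    (fun x y h => hsep x y fun g hg => h ⟨g, hg⟩) (F.coord γ)
  let Ψ : X ⊕ C(X, ℝ) → Set (X ⊕ C(X, ℝ)) := Sum.elim
    (fun z => ⋃ γ ∈ {γ | F.f z γ ≠ 0}, (fun g : C₀ => Sum.inr (g : C(X, ℝ))) '' c γ) fun _ => ∅
  have hΨc : ∀ w, (Ψ w).Countable := by
    rintro (z | g)
    · exact (F.countSupp z).biUnion fun γ _ => (hc γ).image _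
    · exact countable_empty
  have hΨe : ∀ w, Ψ w ⊆ range e := by
    rintro (z | g)
    · refine iUnion₂_subset fun γ _ => ?_
      rintro _ ⟨g, _, rfl⟩
      exact hC₀ ⟨g, g.2, rfl⟩
    · exact empty_subset _
  obtain ⟨h, hh⟩ := exists_h hκ hκ' e (fun l => ⋃ w ∈ {w | w ∈ l}, Ψ w)
    (fun l => (l.finite_toSet.countable).biUnion fun w _ => hΨc w)
    (fun l => iUnion₂_subset fun w _ => hΨe w)
  refine ⟨h, fun ξ hne hξ x hx y hy hxy => hF x y ?_⟩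
  have hclo := hh ξ hne hξ
  funext γ
  by_cases hz : ∃ z ∈ XP (e '' Iio ξ), F.f z γ ≠ 0
  · obtain ⟨z, hz, hzγ⟩ := hz
    refine hc' γ x y fun g hg => hxy g ?_
    refine hclo [Sum.inl z] (fun a ha => by rw [List.mem_singleton.1 ha]; exact hz) ?_
    refine mem_iUnion₂.2 ⟨Sum.inl z, by simp, ?_⟩
    exact mem_iUnion₂.2 ⟨γ, hzγ, g, hg, rfl⟩
  · push Not at hz
    rw [F.eq_zero_of_closure _ γ hz x hx, F.eq_zero_of_closure _ γ hz y hy]

/-- The key argument for regular cardinals. -/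
theorem exists_h_sep [CompactSpace X] (hs : Splt X) {κ : Cardinal.{0}} (hκ : κ.IsRegular)
    (hκ' : ℵ₀ < κ) (e : κ.ord.ToType → X ⊕ C(X, ℝ)) (C₀ : Set C(X, ℝ))
    (hC₀ : Sum.inr '' C₀ ⊆ range e) (hsep : ∀ x y, (∀ g ∈ C₀, g x = g y) → x = y) :
    ∃ h : κ.ord.ToType → κ.ord.ToType, ∀ ξ, (∃ η, η < ξ) → (∀ η < ξ, h η < ξ) →
      ∀ x ∈ closure (XP (e '' Iio ξ)), ∀ y ∈ closure (XP (e '' Iio ξ)),
        (∀ g ∈ CP (e '' Iio ξ), g x = g y) → x = y := by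
  classical
  by_contra hcon
  push Not at hcon
  -- the bad set
  let S : Set κ.ord.ToType := {ξ | (∃ η, η < ξ) ∧ ∃ x ∈ closure (XP (e '' Iio ξ)),
    ∃ y ∈ closure (XP (e '' Iio ξ)), (∀ g ∈ CP (e '' Iio ξ), g x = g y) ∧ x ≠ y}
  have hstat : ∀ h : κ.ord.ToType → κ.ord.ToType, ∃ ξ ∈ S, ∀ η < ξ, h η < ξ := by
    intro h
    obtain ⟨ξ, hne, hξ, x, hx, y, hy, hxy, hxy'⟩ := hcon h
    exact ⟨ξ, ⟨hne, x, hx, y, hy, hxy, hxy'⟩, hξ⟩
  obtain ⟨ξ₀, hξ₀, -⟩ := hstat id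
  obtain ⟨-, x₀, -, -⟩ := hξ₀
  have hpt : ∀ ξ, ∃ p : X × X, ξ ∈ S → p.1 ∈ closure (XP (e '' Iio ξ)) ∧
      p.2 ∈ closure (XP (e '' Iio ξ)) ∧ (∀ g ∈ CP (e '' Iio ξ), g p.1 = g p.2) ∧ p.1 ≠ p.2 := by
    intro ξ
    by_cases h : ξ ∈ S
    · obtain ⟨_, x, hx, y, hy, h1, h2⟩ := h
      exact ⟨(x, y), fun _ => ⟨hx, hy, h1, h2⟩⟩
    · exact ⟨(x₀, x₀), fun h' => absurd h' h⟩
  choose p hp using hpt
  choose hA hhA using exists_h_set hs hκ hκ' e C₀ hC₀ hsep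
  have key : ∀ A ξ, ξ ∈ S → (∀ η < ξ, hA A η < ξ) → ((p ξ).1 ∈ A ↔ (p ξ).2 ∈ A) := by
    intro A ξ hξ hcl
    obtain ⟨h1, h2, h3, _⟩ := hp ξ hξ
    exact hhA A ξ hξ.1 hcl _ h1 _ h2 h3
  obtain ⟨hD, hhD⟩ := diag hκ fun ζ η => max (hA {(p ζ).1} η) (hA {(p ζ).2} η)
  have hnew : ∀ ξ ∈ S, (∀ η < ξ, hD η < ξ) → ∀ ζ < ξ,
      (p ξ).1 ≠ (p ζ).1 ∧ (p ξ).2 ≠ (p ζ).1 ∧ (p ξ).1 ≠ (p ζ).2 ∧ (p ξ).2 ≠ (p ζ).2 := by
    intro ξ hξ hcl ζ hζ
    have h1 := key {(p ζ).1} ξ hξ fun η hη => (le_max_left _ _).trans_lt (hhD ξ hcl ζ hζ η hη)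
    have h2 := key {(p ζ).2} ξ hξ fun η hη => (le_max_right _ _).trans_lt (hhD ξ hcl ζ hζ η hη)
    have hne := (hp ξ hξ).2.2.2
    simp only [mem_singleton_iff] at h1 h2
    refine ⟨fun h => hne ?_, fun h => hne ?_, fun h => hne ?_, fun h => hne ?_⟩
    · exact h.trans (h1.1 h).symm
    · exact (h1.2 h).trans h.symm
    · exact h.trans (h2.1 h).symm
    · exact (h2.2 h).trans h.symm
  let A : Set X := {x | ∃ ξ ∈ S, (∀ η < ξ, hD η < ξ) ∧ x = (p ξ).1}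
  obtain ⟨ξ, hξS, hξ⟩ := hstat fun η => max (hD η) (hA A η)
  have hξD : ∀ η < ξ, hD η < ξ := fun η hη => (le_max_left _ _).trans_lt (hξ η hη)
  have hξA : ∀ η < ξ, hA A η < ξ := fun η hη => (le_max_right _ _).trans_lt (hξ η hη)
  have h1 : (p ξ).1 ∈ A := ⟨ξ, hξS, hξD, rfl⟩
  obtain ⟨η, hηS, hηD, hη⟩ := (key A ξ hξS hξA).1 h1
  rcases lt_trichotomy η ξ with hlt | heq | hgt
  · exact (hnew ξ hξS hξD η hlt).2.1 hη
  · subst heq
    exact (hp η hηS).2.2.2 hη.symm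
  · exact (hnew η hηS hηD ξ hgt).2.2.1 hη.symm

theorem reg_case [CompactSpace X] [T2Space X] (hs : Splt X) (D : Set X) (hD : Dense D)
    (κ : Cardinal.{0}) (hκ : κ.IsRegular) (hκ' : ℵ₀ < κ) (hDκ : #D ≤ κ)
    (hIH : ∀ A : Set X, #A < κ → CorsonOn (closure A)) : CorsonOn (univ : Set X) := by
  classical
  obtain ⟨C₀, hC₀κ, hC₀⟩ := mono hs κ.ord.ToType (by rw [Cardinal.mk_ord_toType]; exact hκ'.le) D
    (by rw [Cardinal.mk_ord_toType]; exact hDκ)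
  rw [Cardinal.mk_ord_toType] at hC₀κ
  have hsep : ∀ x y, (∀ g ∈ C₀, g x = g y) → x = y := fun x y h => hC₀ x (hD x) y (hD y) h
  obtain ⟨e, he⟩ := exists_enum (K := κ.ord.ToType)
    (insert (Sum.inr 0) (Sum.inl '' D ∪ Sum.inr '' C₀) : Set (X ⊕ C(X, ℝ))) (insert_nonempty _ _)
    (by
      rw [Cardinal.mk_ord_toType]
      refine (Cardinal.mk_insert_le).trans ?_
      refine Cardinal.add_le_of_le hκ'.le ?_ (Cardinal.one_lt_aleph0.trans hκ').le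
      refine (Cardinal.mk_union_le _ _).trans ?_
      exact Cardinal.add_le_of_le hκ'.le ((Cardinal.mk_image_le).trans hDκ)
        ((Cardinal.mk_image_le).trans hC₀κ))
  have heD : Sum.inl '' D ⊆ range e := by
    rw [he]
    exact subset_union_left.trans (subset_insert _ _)
  have heC : Sum.inr '' C₀ ⊆ range e := by
    rw [he]
    exact subset_union_right.trans (subset_insert _ _)
  obtain ⟨Φ, hΦc, hΦD, hΦ⟩ := exists_op D hD
  obtain ⟨h0, hh0⟩ := exists_h hκ hκ' e Φ hΦc fun l => (hΦD l).trans heD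
  obtain ⟨h1, hh1⟩ := exists_h_sep hs hκ hκ' e C₀ heC hsep
  let h : κ.ord.ToType → κ.ord.ToType := fun η => max (h0 η) (h1 η)
  have hgood : ∀ T : Set κ.ord.ToType, T.Nonempty → (∀ i ∈ T, ∀ j, j ≤ i → j ∈ T) →
      (∀ i ∈ T, h i ∈ T) → Good (XP (e '' T)) (CP (e '' T)) := by
    intro T hTne hT hTh
    by_cases hTu : T = univ
    · subst hTu
      rw [image_univ]
      refine good_of_dense _ _ ?_ ?_
      · refine hD.mono fun d hd => ?_
        exact heD ⟨d, hd, rfl⟩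
      · intro x y hxy
        exact hsep x y fun g hg => hxy g (heC ⟨g, hg, rfl⟩)
    · obtain ⟨ξ, rfl⟩ := eq_Iio T hT hTu
      have hne : ∃ η, η < ξ := hTne
      exact ⟨hΦ _ (hh0 ξ hne fun η hη => (le_max_left _ _).trans_lt (hTh η hη)),
        hh1 ξ hne fun η hη => (le_max_right _ _).trans_lt (hTh η hη)⟩
  let P : κ.ord.ToType → Set (Set κ.ord.ToType) := fun i =>
    {T | (∀ i ∈ T, ∀ j, j ≤ i → j ∈ T) ∧ (∀ i ∈ T, h i ∈ T) ∧ i ∈ T}
  let T : κ.ord.ToType → Set κ.ord.ToType := fun i => ⋂₀ P i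
  have hT1 : ∀ i, ∀ k ∈ T i, ∀ j, j ≤ k → j ∈ T i := fun i k hk j hj =>
    mem_sInter.2 fun U hU => hU.1 k (mem_sInter.1 hk U hU) j hj
  have hT2 : ∀ i, ∀ k ∈ T i, h k ∈ T i := fun i k hk =>
    mem_sInter.2 fun U hU => hU.2.1 k (mem_sInter.1 hk U hU)
  have hT3 : ∀ i, i ∈ T i := fun i => mem_sInter.2 fun U hU => hU.2.2
  have hTm : Monotone T := by
    intro i j hij
    refine sInter_subset_sInter ?_
    intro U hU
    exact ⟨hU.1, hU.2.1, hU.1 j hU.2.2 i hij⟩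
  have hTc : ∀ i, #(T i) < κ := by
    intro i
    obtain ⟨ξ, hξi, hξ⟩ := exists_closed_gt hκ hκ' h i
    have : T i ⊆ Iio ξ := by
      refine sInter_subset_of_mem ⟨fun k hk j hj => lt_of_le_of_lt hj hk, hξ, hξi⟩
    exact (Cardinal.mk_le_mk_of_subset this).trans_lt (mk_Iio_lt' ξ)
  refine comb (fun i => XP (e '' T i)) (fun i => CP (e '' T i)) hs
    (fun i j hij => XP_mono (image_mono (hTm hij))) (fun i => hgood _ ⟨i, hT3 i⟩ (hT1 i) (hT2 i))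
    ?_ ?_ ?_ ?_
  · intro i hi
    rw [← XP_iUnion, ← CP_iUnion, ← image_iUnion₂]
    refine hgood _ ?_ ?_ ?_
    · obtain ⟨j, hj⟩ := hi
      exact ⟨j, mem_biUnion (mem_Iio.2 hj) (hT3 j)⟩
    · intro k hk l hl
      obtain ⟨j, hj, hkj⟩ := mem_iUnion₂.1 hk
      exact mem_biUnion hj (hT1 j k hkj l hl)
    · intro k hk
      obtain ⟨j, hj, hkj⟩ := mem_iUnion₂.1 hk
      exact mem_biUnion hj (hT2 j k hkj)
  · refine hD.mono fun d hd => ?_
    obtain ⟨η, hη⟩ := heD ⟨d, hd, rfl⟩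
    exact mem_iUnion.2 ⟨η, η, hT3 η, hη⟩
  · intro x y hxy
    refine hsep x y fun g hg => ?_
    obtain ⟨η, hη⟩ := heC ⟨g, hg, rfl⟩
    exact hxy η g ⟨η, hT3 η, hη⟩
  · intro i
    refine hIH _ ?_
    exact ((mk_XP_le _).trans (Cardinal.mk_image_le)).trans_lt (hTc i)

end Pool.Agent.H61.Sp
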