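import Pool.Agent.H61.SpReg
import Pool.Agent.H61.SpComp

set_option autoImplicit false

open Set Topology Filter
open scoped Cardinal

namespace Pool.Agent.H61.Sp

open Pool.Agent.H61.Clos

theorem cl_iUnion {Ω ι : Type} [Nonempty ι] {Φ : List Ω → Set Ω} (E : ι → Set Ω)
    (hd : Directed (· ⊆ ·) E) : cl Φ (⋃ i, E i) = ⋃ i, cl Φ (E i) := by
  refine Subset.antisymm ?_ ?_
  · refine cl_min (clo_iUnion _ ?_ fun i => clo_cl Φ _) ?_
    · intro i j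
      obtain ⟨k, hik, hjk⟩ := hd i j
      exact ⟨k, cl_mono hik, cl_mono hjk⟩
    · exact iUnion_mono fun i => subset_cl Φ _
  · exact iUnion_subset fun i => cl_mono (subset_iUnion E i)

section sing

variable {X : Type} [TopologicalSpace X] {K Λ ℐ : Type}

/-- The index sets. -/
def JJ [Preorder K] (J₀ : Set K) (c : Λ → K) (T : Set Λ) : Set K := J₀ ∪ ⋃ j ∈ T, Iic (c j)

/-- The generating sets. -/
def SS (e : K → X ⊕ C(X, ℝ)) (𝒢 : Set (ℐ → K → C(X, ℝ))) (J : Set K) : Set (X ⊕ C(X, ℝ)) :=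
  e '' J ∪ ⋃ g ∈ 𝒢, ⋃ t, (fun η => Sum.inr (g t η)) '' J

theorem SS_mono (e : K → X ⊕ C(X, ℝ)) {𝒢 𝒢' : Set (ℐ → K → C(X, ℝ))} {J J' : Set K}
    (h : 𝒢 ⊆ 𝒢') (hJ : J ⊆ J') : SS e 𝒢 J ⊆ SS e 𝒢' J' := by
  refine union_subset_union (image_mono hJ) ?_
  refine (biUnion_subset_biUnion_left h).trans ?_
  exact iUnion₂_mono fun g _ => iUnion_mono fun t => image_mono hJ

theorem SS_iUnion_left (e : K → X ⊕ C(X, ℝ)) {ι : Type} [Nonempty ι]
    (𝒢 : ι → Set (ℐ → K → C(X, ℝ))) (J : Set K) :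
    SS e (⋃ i, 𝒢 i) J = ⋃ i, SS e (𝒢 i) J := by
  refine Subset.antisymm ?_ (iUnion_subset fun i => SS_mono e (subset_iUnion 𝒢 i) Subset.rfl)
  rintro w (hw | hw)
  · exact mem_iUnion.2 ⟨Classical.arbitrary ι, Or.inl hw⟩
  · obtain ⟨g, hg, hw⟩ := mem_iUnion₂.1 hw
    obtain ⟨i, hi⟩ := mem_iUnion.1 hg
    exact mem_iUnion.2 ⟨i, Or.inr (mem_iUnion₂.2 ⟨g, hi, hw⟩)⟩

theorem SS_iUnion_right (e : K → X ⊕ C(X, ℝ)) {ι : Type}
    (𝒢 : Set (ℐ → K → C(X, ℝ))) (J : ι → Set K) :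
    SS e 𝒢 (⋃ i, J i) = ⋃ i, SS e 𝒢 (J i) := by
  refine Subset.antisymm ?_ (iUnion_subset fun i => SS_mono e Subset.rfl (subset_iUnion J i))
  rintro w (hw | hw)
  · obtain ⟨η, hη, rfl⟩ := hw
    obtain ⟨i, hi⟩ := mem_iUnion.1 hη
    exact mem_iUnion.2 ⟨i, Or.inl ⟨η, hi, rfl⟩⟩
  · obtain ⟨g, hg, hw⟩ := mem_iUnion₂.1 hw
    obtain ⟨t, η, hη, rfl⟩ := mem_iUnion.1 hw
    obtain ⟨i, hi⟩ := mem_iUnion.1 hη
    exact mem_iUnion.2 ⟨i, Or.inr (mem_iUnion₂.2 ⟨g, hg, mem_iUnion.2 ⟨t, η, hi, rfl⟩⟩)⟩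

theorem mk_SS_le (e : K → X ⊕ C(X, ℝ)) (𝒢 : Set (ℐ → K → C(X, ℝ))) (J : Set K)
    (μ : Cardinal.{0}) (hμ : ℵ₀ ≤ μ) (h𝒢 : #𝒢 ≤ μ) (hℐ : #ℐ ≤ μ) (hJ : #J ≤ μ) :
    #(SS e 𝒢 J) ≤ μ := by
  refine (Cardinal.mk_union_le _ _).trans ?_
  refine Cardinal.add_le_of_le hμ (Cardinal.mk_image_le.trans hJ) ?_
  rw [biUnion_eq_iUnion]
  refine (Cardinal.mk_iUnion_le_sum_mk).trans ?_
  refine (Cardinal.sum_le_sum _ (fun _ => μ) fun g => ?_).trans ?_
  · refine (Cardinal.mk_iUnion_le_sum_mk).trans ?_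
    refine (Cardinal.sum_le_sum _ (fun _ => μ) fun t => Cardinal.mk_image_le.trans hJ).trans ?_
    rw [Cardinal.sum_const]
    simp only [Cardinal.lift_id]
    exact Cardinal.mul_le_of_le hμ hℐ le_rfl
  · rw [Cardinal.sum_const]
    simp only [Cardinal.lift_id]
    exact Cardinal.mul_le_of_le hμ h𝒢 le_rfl

/-- A countable part of the operations suffices for a given point. -/
theorem mem_closure_countable [CompactSpace X] (hs : Splt X)
    (Φ : List (X ⊕ C(X, ℝ)) → Set (X ⊕ C(X, ℝ))) (e : K → X ⊕ C(X, ℝ))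
    (𝒢 : Set (ℐ → K → C(X, ℝ))) (J : Set K) (x : X)
    (hx : x ∈ closure (XP (cl Φ (SS e 𝒢 J)))) :
    ∃ 𝒢' ⊆ 𝒢, 𝒢'.Countable ∧ x ∈ closure (XP (cl Φ (SS e 𝒢' J))) := by
  obtain ⟨B', hB', hB'c, hxB'⟩ := tight hs _ x hx
  let ι : Type := {𝒢' : Set (ℐ → K → C(X, ℝ)) // 𝒢' ⊆ 𝒢 ∧ 𝒢'.Countable}
  have : Nonempty ι := ⟨⟨∅, empty_subset _, countable_empty⟩⟩
  have h1 : (⋃ i : ι, i.1) = 𝒢 := by
    refine Subset.antisymm (iUnion_subset fun i => i.2.1) ?_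
    intro g hg
    exact mem_iUnion.2 ⟨⟨{g}, singleton_subset_iff.2 hg, countable_singleton g⟩, rfl⟩
  have h2 : cl Φ (SS e 𝒢 J) = ⋃ i : ι, cl Φ (SS e i.1 J) := by
    rw [← cl_iUnion, ← SS_iUnion_left, h1]
    intro i j
    refine ⟨⟨i.1 ∪ j.1, union_subset i.2.1 j.2.1, i.2.2.union j.2.2⟩, ?_, ?_⟩
    · exact SS_mono e subset_union_left Subset.rfl
    · exact SS_mono e subset_union_right Subset.rfl
  have h3 : ∀ b : B', ∃ i : ι, Sum.inl (b : X) ∈ cl Φ (SS e i.1 J) := by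
    intro b
    have h4 : Sum.inl (b : X) ∈ cl Φ (SS e 𝒢 J) := hB' b.2
    rw [h2] at h4
    exact mem_iUnion.1 h4
  choose i hi using h3
  have := hB'c.to_subtype
  refine ⟨⋃ b, (i b).1, iUnion_subset fun b => (i b).2.1, countable_iUnion fun b => (i b).2.2, ?_⟩
  refine closure_mono ?_ hxB'
  intro b hb
  exact cl_mono (SS_mono e (subset_iUnion (fun b => (i b).1) ⟨b, hb⟩) Subset.rfl) (hi ⟨b, hb⟩)

theorem sing_case [CompactSpace X] [T2Space X] (hs : Splt X) (D : Set X) (hD : Dense D)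
    (κ : Cardinal.{0}) (hκ : ¬ κ.IsRegular) (hκ' : 𝔠 < κ) (hDκ : #D ≤ κ)
    (hIH : ∀ A : Set X, #A < κ → CorsonOn (closure A)) : CorsonOn (univ : Set X) := by
  classical
  have hκ0 : ℵ₀ ≤ κ := Cardinal.aleph0_le_continuum.trans hκ'.le
  set lam : Cardinal.{0} := κ.ord.cof with hlam
  have hlamκ : lam < κ := by
    by_contra h
    exact hκ ⟨hκ0, not_lt.1 h⟩
  have hlam0 : ℵ₀ ≤ lam := by
    have h1 : Order.IsSuccLimit κ.ord := Cardinal.isSuccLimit_ord hκ0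
    exact Cardinal.IsRegular.aleph0_le (Cardinal.isRegular_cof h1)
  let K := κ.ord.ToType
  let Λ := lam.ord.ToType
  have hKc : #K = κ := Cardinal.mk_ord_toType κ
  have hΛc : #Λ = lam := Cardinal.mk_ord_toType lam
  -- cofinal enumeration
  obtain ⟨s, hscof, hsc⟩ := Order.exists_cof_eq K
  rw [Ordinal.cof_toType, ← hlam] at hsc
  have hsne : s.Nonempty := by
    rw [← nonempty_coe_sort, ← Cardinal.mk_ne_zero_iff, hsc]
    exact (Cardinal.aleph0_pos.trans_le hlam0).ne'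
  obtain ⟨c, hc⟩ := exists_enum (K := Λ) s hsne (by rw [hsc, hΛc])
  -- the base set
  set θ : Cardinal.{0} := max lam 𝔠 with hθ
  have hθκ : θ < κ := max_lt hlamκ hκ'
  have hθ0 : ℵ₀ ≤ θ := hlam0.trans (le_max_left _ _)
  obtain ⟨J₀, hJ₀⟩ := Cardinal.le_mk_iff_exists_set.1 (hθκ.le.trans hKc.ge)
  let JT : Set Λ → Set K := JJ J₀ c
  have hJθ : ∀ T, θ ≤ #(JT T) := fun T =>
    hJ₀.ge.trans (Cardinal.mk_le_mk_of_subset subset_union_left)
  have hJ0 : ∀ T, ℵ₀ ≤ #(JT T) := fun T => hθ0.trans (hJθ T)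
  -- enumeration
  obtain ⟨C₀, hC₀κ, hC₀⟩ := mono hs K (by rw [hKc]; exact hκ0) D (by rw [hKc]; exact hDκ)
  rw [hKc] at hC₀κ
  have hsep : ∀ x y, (∀ g ∈ C₀, g x = g y) → x = y := fun x y h => hC₀ x (hD x) y (hD y) h
  obtain ⟨e, he⟩ := exists_enum (K := K)
    (insert (Sum.inr 0) (Sum.inl '' D ∪ Sum.inr '' C₀) : Set (X ⊕ C(X, ℝ))) (insert_nonempty _ _)
    (by
      rw [hKc]
      refine (Cardinal.mk_insert_le).trans ?_
      refine Cardinal.add_le_of_le hκ0 ?_ (Cardinal.one_lt_aleph0.le.trans hκ0)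
      refine (Cardinal.mk_union_le _ _).trans ?_
      exact Cardinal.add_le_of_le hκ0 ((Cardinal.mk_image_le).trans hDκ)
        ((Cardinal.mk_image_le).trans hC₀κ))
  have heD : Sum.inl '' D ⊆ range e := by
    rw [he]
    exact subset_union_left.trans (subset_insert _ _)
  have heC : Sum.inr '' C₀ ⊆ range e := by
    rw [he]
    exact subset_union_right.trans (subset_insert _ _)
  obtain ⟨Φ, hΦc, hΦD, hΦ⟩ := exists_op D hD
  -- the index type of relevant initial segments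
  let ℐ := Λ ⊕ Λ
  let τ : ℐ → Set Λ := Sum.elim Iic Iio
  have hℐ : #ℐ ≤ θ := by
    simp only [ℐ, Cardinal.mk_sum, Cardinal.lift_id]
    rw [hΛc]
    exact Cardinal.add_le_of_le hθ0 (le_max_left _ _) (le_max_left _ _)
  have hstep : ∀ G : ℕ → ℐ → K → C(X, ℝ), ∃ G' : ℐ → K → C(X, ℝ), ∀ t,
      ∀ x ∈ closure (XP (cl Φ (SS e (range G) (JT (τ t))))),
      ∀ y ∈ closure (XP (cl Φ (SS e (range G) (JT (τ t))))),
        (∀ η ∈ JT (τ t), G' t η x = G' t η y) → x = y := by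
    intro G
    have h1 : ∀ t, ∃ f : K → C(X, ℝ),
        ∀ x ∈ closure (XP (cl Φ (SS e (range G) (JT (τ t))))),
        ∀ y ∈ closure (XP (cl Φ (SS e (range G) (JT (τ t))))),
          (∀ η ∈ JT (τ t), f η x = f η y) → x = y := by
      intro t
      have h2 : #(XP (cl Φ (SS e (range G) (JT (τ t))))) ≤ #(JT (τ t)) := by
        refine (mk_XP_le _).trans ?_
        refine mk_cl_le hΦc _ _ (hJ0 _) ?_
        refine mk_SS_le e _ _ _ (hJ0 _) ?_ (hℐ.trans (hJθ _)) le_rfl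
        exact (Cardinal.le_aleph0_iff_set_countable.2 (countable_range G)).trans (hJ0 _)
      obtain ⟨C, hCc, hC⟩ := mono hs (JT (τ t)) (hJ0 _) _ h2
      obtain ⟨e', he'⟩ := exists_enum (K := JT (τ t)) (insert 0 C) (insert_nonempty _ _) (by
        refine (Cardinal.mk_insert_le).trans ?_
        exact Cardinal.add_le_of_le (hJ0 _) hCc (Cardinal.one_lt_aleph0.le.trans (hJ0 _)))
      refine ⟨fun η => if h : η ∈ JT (τ t) then e' ⟨η, h⟩ else 0, fun x hx y hy hxy => ?_⟩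
      refine hC x hx y hy fun g hg => ?_
      have h3 : g ∈ range e' := by
        rw [he']
        exact mem_insert_of_mem _ hg
      obtain ⟨⟨η, hη⟩, rfl⟩ := h3
      have h4 := hxy η hη
      simpa only [hη, dif_pos] using h4
    choose f hf using h1
    exact ⟨f, hf⟩
  choose N hN using hstep
  obtain ⟨𝒢, h𝒢0, h𝒢c, h𝒢N⟩ := exists_closed (I := Unit) (J := ℕ) (by simp)
    (by simpa using Cardinal.one_lt_aleph0.le.trans Cardinal.aleph0_le_continuum)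
    (fun _ => N) {fun _ _ => 0}
    (by simpa using Cardinal.one_lt_aleph0.le.trans Cardinal.aleph0_le_continuum)
  have h𝒢θ : #𝒢 ≤ θ := h𝒢c.trans (le_max_right _ _)
  let M : Set Λ → Set (X ⊕ C(X, ℝ)) := fun T => cl Φ (SS e 𝒢 (JT T))
  have hgood : ∀ t, Good (XP (M (τ t))) (CP (M (τ t))) := by
    intro t
    refine ⟨hΦ _ (clo_cl Φ _), fun x hx y hy hxy => ?_⟩
    obtain ⟨𝒢₁, h1, h1c, hx1⟩ := mem_closure_countable hs Φ e 𝒢 _ x hx
    obtain ⟨𝒢₂, h2, h2c, hy2⟩ := mem_closure_countable hs Φ e 𝒢 _ y hy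
    have h3 : (insert (fun _ _ => 0) (𝒢₁ ∪ 𝒢₂)).Countable := (h1c.union h2c).insert _
    obtain ⟨G, hG⟩ := h3.exists_eq_range (insert_nonempty _ _)
    have hGs : ∀ n, G n ∈ 𝒢 := by
      intro n
      have : G n ∈ insert (fun _ _ => 0) (𝒢₁ ∪ 𝒢₂) := by
        rw [hG]
        exact mem_range_self n
      rcases this with h | h | h
      · rw [h]
        exact h𝒢0 rfl
      · exact h1 h
      · exact h2 h
    have hGN := h𝒢N () G hGs
    refine hN G t x ?_ y ?_ fun η hη => hxy _ ?_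
    · refine closure_mono (XP_mono (cl_mono (SS_mono e ?_ Subset.rfl))) hx1
      rw [← hG]
      exact subset_union_left.trans (subset_insert _ _)
    · refine closure_mono (XP_mono (cl_mono (SS_mono e ?_ Subset.rfl))) hy2
      rw [← hG]
      exact subset_union_right.trans (subset_insert _ _)
    · refine subset_cl Φ _ (Or.inr ?_)
      exact mem_iUnion₂.2 ⟨N G, hGN, mem_iUnion.2 ⟨t, η, hη, rfl⟩⟩
  have hJm : ∀ T T' : Set Λ, T ⊆ T' → JT T ⊆ JT T' := fun T T' h =>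
    union_subset_union_right _ (biUnion_subset_biUnion_left h)
  have hMm : ∀ T T' : Set Λ, T ⊆ T' → M T ⊆ M T' := fun T T' h =>
    cl_mono (SS_mono e Subset.rfl (hJm T T' h))
  have hMlim : ∀ i : Λ, (∃ j, j < i) → ⋃ j ∈ Iio i, M (Iic j) = M (Iio i) := by
    intro i hi
    have : Nonempty (Iio i) := by
      obtain ⟨j, hj⟩ := hi
      exact ⟨⟨j, hj⟩⟩
    rw [biUnion_eq_iUnion]
    have h1 : JT (Iio i) = ⋃ j : Iio i, JT (Iic j.1) := by
      ext η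
      constructor
      · rintro (h | h)
        · exact mem_iUnion.2 ⟨Classical.arbitrary _, Or.inl h⟩
        · obtain ⟨j, hj, hη⟩ := mem_iUnion₂.1 h
          exact mem_iUnion.2 ⟨⟨j, hj⟩, Or.inr (mem_iUnion₂.2 ⟨j, mem_Iic.2 le_rfl, hη⟩)⟩
      · intro h
        obtain ⟨j, h⟩ := mem_iUnion.1 h
        have h2 : (Iic j.1 : Set Λ) ⊆ Iio i := fun k hk => lt_of_le_of_lt (mem_Iic.1 hk) (mem_Iio.1 j.2)
        exact hJm (Iic j.1) (Iio i) h2 h
    simp only [M]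
    rw [h1, SS_iUnion_right, cl_iUnion]
    intro j k
    refine ⟨max j k, SS_mono e Subset.rfl (hJm _ _ (Iic_subset_Iic.2 ?_)),
      SS_mono e Subset.rfl (hJm _ _ (Iic_subset_Iic.2 ?_))⟩
    · exact le_max_left j k
    · exact le_max_right j k
  have hcofK : ∀ η : K, ∃ j : Λ, η ≤ c j := by
    intro η
    obtain ⟨b, hb, hηb⟩ := hscof η
    rw [← hc] at hb
    obtain ⟨j, rfl⟩ := hb
    exact ⟨j, hηb⟩
  have heM : ∀ η : K, ∃ j : Λ, e η ∈ M (Iic j) := by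
    intro η
    obtain ⟨j, hj⟩ := hcofK η
    refine ⟨j, subset_cl Φ _ (Or.inl ⟨η, Or.inr ?_, rfl⟩)⟩
    exact mem_iUnion₂.2 ⟨j, mem_Iic.2 le_rfl, hj⟩
  have hMc : ∀ i : Λ, #(M (Iic i)) < κ := by
    intro i
    have h1 : ∃ a : K, ∀ b ∈ c '' Iic i, b < a := by
      refine exists_ub _ ?_
      rw [← hlam]
      exact (Cardinal.mk_image_le).trans_lt (mk_Iic_lt hlam0 i)
    obtain ⟨a, ha⟩ := h1
    have h2 : #(JT (Iic i)) < κ := by
      have h3 : JT (Iic i) ⊆ J₀ ∪ Iio a := by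
        refine union_subset_union_right _ (iUnion₂_subset fun j hj => ?_)
        intro η hη
        exact lt_of_le_of_lt hη (ha _ ⟨j, hj, rfl⟩)
      refine (Cardinal.mk_le_mk_of_subset h3).trans_lt ?_
      refine (Cardinal.mk_union_le _ _).trans_lt ?_
      refine Cardinal.add_lt_of_lt hκ0 ?_ (mk_Iio_lt' a)
      rw [hJ₀]
      exact hθκ
    refine lt_of_le_of_lt ?_ h2
    refine mk_cl_le hΦc _ _ (hJ0 _) ?_
    exact mk_SS_le e _ _ _ (hJ0 _) (h𝒢θ.trans (hJθ _)) (hℐ.trans (hJθ _)) le_rfl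
  refine comb (fun i : Λ => XP (M (Iic i))) (fun i => CP (M (Iic i))) hs
    (fun i j hij => XP_mono (hMm _ _ (Iic_subset_Iic.2 hij)))
    (fun i => hgood (Sum.inl i)) ?_ ?_ ?_ ?_
  · intro i hi
    rw [← XP_iUnion, ← CP_iUnion, hMlim i hi]
    exact hgood (Sum.inr i)
  · refine hD.mono fun d hd => ?_
    obtain ⟨η, hη⟩ := heD ⟨d, hd, rfl⟩
    obtain ⟨j, hj⟩ := heM η
    refine mem_iUnion.2 ⟨j, ?_⟩
    rw [hη] at hj
    exact hj
  · intro x y hxy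
    refine hsep x y fun g hg => ?_
    obtain ⟨η, hη⟩ := heC ⟨g, hg, rfl⟩
    obtain ⟨j, hj⟩ := heM η
    rw [hη] at hj
    exact hxy j g hj
  · intro i
    exact hIH _ ((mk_XP_le _).trans_lt (hMc i))

end sing

end Pool.Agent.H61.Sp
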