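import Mathlib

set_option autoImplicit false

open Topology Set Filter

namespace Pool.Agent.H61.Valdivia

/-- The index set: a well-ordered type of order type `ω₁`. -/
abbrev W : Type := (Cardinal.aleph 1).ord.ToType

theorem countable_Iio (i : W) : (Set.Iio i).Countable := by
  have h : Cardinal.mk (Set.Iio i) < Cardinal.aleph 1 := by
    have := Cardinal.mk_Iio_lt i (by simp)
    simpa using this
  rw [← Cardinal.le_aleph0_iff_set_countable]
  have h2 : Cardinal.mk (Set.Iio i) < Order.succ Cardinal.aleph0 :=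
    lt_of_lt_of_eq h Cardinal.succ_aleph0.symm
  exact Order.lt_succ_iff.1 h2

theorem countable_Iic (i : W) : (Set.Iic i).Countable := by
  have : Set.Iic i = insert i (Set.Iio i) := by
    ext x; simp [le_iff_eq_or_lt]
  rw [this]
  exact (countable_Iio i).insert i

theorem not_countable_univ : ¬ (Set.univ : Set W).Countable := by
  intro h
  rw [← Cardinal.le_aleph0_iff_set_countable] at h
  have h2 : Cardinal.mk (Set.univ : Set W) = Cardinal.aleph 1 := by simp
  rw [h2] at h
  exact absurd h (not_le.2 Cardinal.aleph0_lt_aleph_one)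

/-- Every countable subset of `W` has a strict upper bound. -/
theorem exists_gt_of_countable (S : Set W) (hS : S.Countable) : ∃ b : W, ∀ s ∈ S, s < b := by
  by_contra hcon
  push Not at hcon
  apply not_countable_univ
  have : (Set.univ : Set W) ⊆ ⋃ s ∈ S, Set.Iic s := by
    intro b _
    obtain ⟨s, hs, hb⟩ := hcon b
    exact Set.mem_biUnion hs hb
  exact (hS.biUnion fun s _ => countable_Iic s).mono this

/-- The compact space: sequences of signs that are zero exactly on an initial segment. -/
def KK : Set (W → SignType) := {c | ∀ d g : W, d < g → c g = 0 → c d = 0}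

theorem isClosed_KK : IsClosed KK := by
  have : KK = ⋂ (d : W) (g : W) (_ : d < g), {c : W → SignType | c g = 0 → c d = 0} := by
    ext c; simp [KK]
  rw [this]
  refine isClosed_iInter fun d => isClosed_iInter fun g => isClosed_iInter fun _ => ?_
  have h1 : {c : W → SignType | c g = 0 → c d = 0} =
      (fun c : W → SignType => (c g, c d)) ⁻¹' {p : SignType × SignType | p.1 = 0 → p.2 = 0} := rfl
  rw [h1]
  exact (isClosed_discrete _).preimage (by fun_prop)

instance : CompactSpace KK := isCompact_iff_compactSpace.1 isClosed_KK.isCompact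

/-- The involution. -/
def hh (c : KK) : KK := ⟨fun g => -(c.1 g), fun d g hdg h0 => by
  have := c.2 d g hdg (by simpa using h0)
  simpa using this⟩

theorem continuous_hh : Continuous hh := by
  refine Continuous.subtype_mk ?_ _
  refine continuous_pi fun g => ?_
  have h1 : Continuous (fun s : SignType => -s) := continuous_of_discreteTopology
  exact h1.comp ((continuous_apply g).comp continuous_subtype_val)

theorem hh_hh (c : KK) : hh (hh c) = c := by
  apply Subtype.ext
  funext g
  simp [hh]

/-- The embedding witnessing that `KK` is Valdivia. -/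
noncomputable def φ₀ (c : KK) : W → ℝ := fun g => 1 - ((c.1 g : SignType) : ℝ)

theorem isEmbedding_φ₀ : Topology.IsEmbedding φ₀ := by
  have hc : Continuous φ₀ := by
    refine continuous_pi fun g => ?_
    have h1 : Continuous (fun s : SignType => (1 : ℝ) - (s : ℝ)) := continuous_of_discreteTopology
    exact h1.comp ((continuous_apply g).comp continuous_subtype_val)
  refine (hc.isClosedEmbedding ?_).isEmbedding
  intro c d hcd
  apply Subtype.ext
  funext g
  have h := congrFun hcd g
  simp only [φ₀] at h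
  have h2 : ((c.1 g : SignType) : ℝ) = ((d.1 g : SignType) : ℝ) := by linarith
  revert h2
  generalize c.1 g = s
  generalize d.1 g = t
  rcases s with _ | _ | _ <;> rcases t with _ | _ | _ <;> simp <;> norm_num

/-- Restrict a point below `b` and continue with ones. -/
noncomputable def trunc (b : W) (c : KK) : KK := ⟨fun g => if g < b then c.1 g else 1, by
  intro d g hdg h0
  by_cases hg : g < b
  · have hd : d < b := hdg.trans hg
    simp only [hg, if_true] at h0
    simp only [hd, if_true]
    exact c.2 d g hdg h0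
  · simp only [hg, if_false] at h0
    exact absurd h0 (by decide)⟩

theorem dense_A₀ : Dense (φ₀ ⁻¹' {x : W → ℝ | {γ : W | x γ ≠ 0}.Countable}) := by
  intro c
  rw [mem_closure_iff_nhds]
  intro U hU
  rw [nhds_subtype_eq_comap, mem_comap] at hU
  obtain ⟨V, hV, hVU⟩ := hU
  rw [nhds_pi, Filter.mem_pi'] at hV
  obtain ⟨I, t, ht, htV⟩ := hV
  obtain ⟨b, hb⟩ := exists_gt_of_countable (I : Set W) I.countable_toSet
  refine ⟨trunc b c, ?_, ?_⟩
  · apply hVU
    apply htV
    intro g hg
    have hgb : g < b := hb g hg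
    have : (trunc b c).1 g = c.1 g := by simp [trunc, hgb]
    change (trunc b c).1 g ∈ t g
    rw [this]
    exact mem_of_mem_nhds (ht g)
  · change {γ : W | φ₀ (trunc b c) γ ≠ 0}.Countable
    refine (countable_Iio b).mono ?_
    intro g hg
    by_contra hgb
    apply hg
    have hgb' : ¬ g < b := hgb
    simp [φ₀, trunc, hgb']

/-- A continuous real function on `KK` depends only on the coordinates below some `b`. -/
theorem exists_bound (f : KK → ℝ) (hf : Continuous f) :
    ∃ b : W, ∀ x y : KK, (∀ g, g < b → x.1 g = y.1 g) → f x = f y := by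
  have key : ∀ n : ℕ, ∃ F : Finset W, ∀ x y : KK, (∀ g ∈ F, x.1 g = y.1 g) →
      |f x - f y| < 1 / ((n : ℝ) + 1) := by
    intro n
    have hCc : IsClosed {p : KK × KK | 1 / ((n : ℝ) + 1) ≤ |f p.1 - f p.2|} :=
      isClosed_le continuous_const (by fun_prop)
    have hE : ∀ g : W, IsClosed {p : KK × KK | p.1.1 g = p.2.1 g} := fun g =>
      isClosed_eq ((continuous_apply g).comp (continuous_subtype_val.comp continuous_fst))
        ((continuous_apply g).comp (continuous_subtype_val.comp continuous_snd))
    obtain ⟨F, hF⟩ := hCc.isCompact.elim_finite_subfamily_closed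
      (fun g : W => {p : KK × KK | p.1.1 g = p.2.1 g}) hE (by
        ext p
        simp only [mem_inter_iff, mem_ofPred_eq, mem_iInter, mem_empty_iff_false, iff_false, not_and]
        intro h1 h2
        have : p.1 = p.2 := Subtype.ext (funext h2)
        rw [this] at h1
        simp only [sub_self, abs_zero] at h1
        have : (0 : ℝ) < 1 / ((n : ℝ) + 1) := by positivity
        linarith)
    refine ⟨F, fun x y hxy => ?_⟩
    by_contra hcon
    push Not at hcon
    have : (x, y) ∈ ({p : KK × KK | 1 / ((n : ℝ) + 1) ≤ |f p.1 - f p.2|} ∩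
        ⋂ g ∈ F, {p : KK × KK | p.1.1 g = p.2.1 g}) := by
      refine ⟨hcon, ?_⟩
      simp only [mem_iInter]
      intro g hg
      exact hxy g hg
    rw [hF] at this
    exact this
  choose F hF using key
  obtain ⟨b, hb⟩ := exists_gt_of_countable (⋃ n, (F n : Set W))
    (Set.countable_iUnion fun n => (F n).countable_toSet)
  refine ⟨b, fun x y hxy => ?_⟩
  have h0 : ∀ n : ℕ, |f x - f y| < 1 / ((n : ℝ) + 1) := fun n =>
    hF n x y fun g hg => hxy g (hb g (mem_iUnion.2 ⟨n, hg⟩))
  by_contra hne
  have hpos : 0 < |f x - f y| := abs_pos.2 (sub_ne_zero.2 hne)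
  obtain ⟨n, hn⟩ := exists_nat_one_div_lt hpos
  exact absurd (h0 n) (not_lt.2 hn.le)

/-- In every dense set and for every `b` there is a point vanishing exactly on `Iic b`. -/
theorem exists_point (A : Set KK) (hA : Dense A) (b : W) :
    ∃ z : KK, z ∈ A ∧ (∀ g, g ≤ b → z.1 g = 0) ∧ (∀ g, b < g → z.1 g ≠ 0) := by
  obtain ⟨s₀, hs₀⟩ := exists_gt_of_countable {b} (Set.countable_singleton b)
  have hs₀' : b < s₀ := hs₀ b rfl
  -- the successor of `b`
  let s : W := WellFounded.min (wellFounded_lt (α := W)) (Set.Ioi b) ⟨s₀, hs₀'⟩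
  have hbs : b < s := WellFounded.min_mem (wellFounded_lt (α := W)) (Set.Ioi b) ⟨s₀, hs₀'⟩
  have hsmin : ∀ g, b < g → s ≤ g := fun g hg =>
    WellFounded.min_le (wellFounded_lt (α := W)) hg
  let O : Set KK := {c | c.1 b = 0 ∧ c.1 s ≠ 0}
  have hO : IsOpen O := by
    have h1 : O = (fun c : KK => (c.1 b, c.1 s)) ⁻¹'
      {p : SignType × SignType | p.1 = 0 ∧ p.2 ≠ 0} := rfl
    rw [h1]
    refine (isOpen_discrete _).preimage ?_
    exact ((continuous_apply b).comp continuous_subtype_val).prodMk
      ((continuous_apply s).comp continuous_subtype_val)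
  have hne : O.Nonempty := by
    refine ⟨⟨fun g => if g ≤ b then 0 else 1, ?_⟩, ?_, ?_⟩
    · intro d g hdg h0
      by_cases hg : g ≤ b
      · have hd : d ≤ b := (hdg.le).trans hg
        simp [hd]
      · simp only [hg, if_false] at h0
        exact absurd h0 (by decide)
    · simp
    · simp [not_le.2 hbs]
  obtain ⟨z, hzO, hzA⟩ := hA.inter_open_nonempty O hO hne
  refine ⟨z, hzA, ?_, ?_⟩
  · intro g hg
    rcases hg.eq_or_lt with h | h
    · rw [h]; exact hzO.1
    · exact z.2 g b h hzO.1
  · intro g hg h0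
    rcases (hsmin g hg).eq_or_lt with h | h
    · exact hzO.2 (h ▸ h0)
    · exact hzO.2 (z.2 s g h h0)

theorem no_invariant (A : Set KK) (hA : Dense A) (hinv : ∀ x, hh x ∈ A ↔ x ∈ A)
    (Γ : Type) (φ : KK → (Γ → ℝ)) (hφ : Topology.IsEmbedding φ)
    (hAφ : A = φ ⁻¹' {x : Γ → ℝ | {γ : Γ | x γ ≠ 0}.Countable}) : False := by
  have hcount : ∀ x ∈ A, {γ : Γ | φ x γ ≠ 0}.Countable := by
    intro x hx
    rw [hAφ] at hx
    exact hx
  have hφc : Continuous φ := hφ.continuous
  choose β hβ using fun i : Γ => exists_bound (fun x => φ x i) ((continuous_apply i).comp hφc)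
  choose z hzA hz0 hz1 using exists_point A hA
  -- the relevant supports
  let T : W → Set Γ := fun b => {γ : Γ | φ (z b) γ ≠ 0} ∪ {γ : Γ | φ (hh (z b)) γ ≠ 0}
  have hT : ∀ b, (T b).Countable := fun b =>
    (hcount _ (hzA b)).union (hcount _ ((hinv _).2 (hzA b)))
  have hstep : ∀ b : W, ∃ b' : W, b < b' ∧ ∀ i ∈ T b, β i < b' := by
    intro b
    obtain ⟨b', hb'⟩ := exists_gt_of_countable (insert b (β '' T b)) (((hT b).image β).insert b)
    exact ⟨b', hb' b (mem_insert _ _), fun i hi => hb' _ (mem_insert_of_mem _ (mem_image_of_mem β hi))⟩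
  choose B hB1 hB2 using hstep
  obtain ⟨w₀, -⟩ := exists_gt_of_countable ∅ Set.countable_empty
  let b : ℕ → W := fun n => Nat.rec w₀ (fun _ x => B x) n
  have hbs : ∀ n, b (n + 1) = B (b n) := fun n => rfl
  have hmono : StrictMono b := strictMono_nat_of_lt_succ fun n => by rw [hbs]; exact hB1 _
  -- supremum of the `b n`
  obtain ⟨a₀, ha₀⟩ := exists_gt_of_countable (Set.range b) (Set.countable_range b)
  let S : Set W := {a | ∀ n, b n < a}
  have hS : S.Nonempty := ⟨a₀, fun n => ha₀ _ ⟨n, rfl⟩⟩
  let α : W := WellFounded.min (wellFounded_lt (α := W)) S hS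
  have hαS : ∀ n, b n < α := WellFounded.min_mem (wellFounded_lt (α := W)) S hS
  have hαmin : ∀ g, g < α → ∃ n, g ≤ b n := by
    intro g hg
    by_contra hcon
    push Not at hcon
    exact absurd hg (not_lt.2 (WellFounded.min_le (wellFounded_lt (α := W)) (s := S) hcon))
  -- limit along an ultrafilter
  let 𝒰 : Ultrafilter ℕ := Filter.hyperfilter ℕ
  have h𝒰 : (𝒰 : Filter ℕ) ≤ atTop := by
    rw [← Nat.cofinite_eq_atTop]
    exact Filter.hyperfilter_le_cofinite
  obtain ⟨x, -, hx⟩ := isCompact_univ.ultrafilter_le_nhds (𝒰.map fun n => z (b n)) (by simp)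
  have hx' : Tendsto (fun n => z (b n)) (𝒰 : Filter ℕ) (𝓝 x) := hx
  have hxh : Tendsto (fun n => hh (z (b n))) (𝒰 : Filter ℕ) (𝓝 (hh x)) :=
    (continuous_hh.tendsto x).comp hx'
  -- coordinates of the limit
  have hcoord : ∀ g, ∀ᶠ n in (𝒰 : Filter ℕ), (z (b n)).1 g = x.1 g := by
    intro g
    have h1 : Tendsto (fun n => (z (b n)).1 g) (𝒰 : Filter ℕ) (𝓝 (x.1 g)) :=
      (((continuous_apply g).comp continuous_subtype_val).tendsto x).comp hx'
    rw [nhds_discrete, tendsto_pure] at h1
    exact h1
  have hx0 : ∀ g, g < α → x.1 g = 0 := by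
    intro g hg
    obtain ⟨m, hm⟩ := hαmin g hg
    have h1 : ∀ᶠ n in (𝒰 : Filter ℕ), (z (b n)).1 g = 0 := by
      refine h𝒰 ?_
      filter_upwards [eventually_ge_atTop m] with n hn
      exact hz0 _ _ (hm.trans (hmono.monotone hn))
    obtain ⟨n, hn1, hn2⟩ := ((hcoord g).and h1).exists
    rw [← hn1, hn2]
  have hxα : x.1 α ≠ 0 := by
    obtain ⟨n, hn⟩ := (hcoord α).exists
    rw [← hn]
    exact hz1 _ _ (hαS n)
  -- the images of `x` and `hh x` agree
  have heq : φ x = φ (hh x) := by
    funext i
    by_cases hi : ∃ n, i ∈ T (b n)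
    · obtain ⟨n, hn⟩ := hi
      refine hβ i x (hh x) fun g hg => ?_
      have hgα : g < α := hg.trans (((hB2 _ _ hn)).trans (hαS (n + 1)))
      have h0 := hx0 g hgα
      simp [hh, h0]
    · push Not at hi
      have h1 : Tendsto (fun n => φ (z (b n)) i) (𝒰 : Filter ℕ) (𝓝 (φ x i)) :=
        (((continuous_apply i).comp hφc).tendsto x).comp hx'
      have h2 : Tendsto (fun n => φ (hh (z (b n))) i) (𝒰 : Filter ℕ) (𝓝 (φ (hh x) i)) :=
        (((continuous_apply i).comp hφc).tendsto (hh x)).comp hxh
      have h3 : ∀ n, φ (z (b n)) i = 0 := by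
        intro n
        by_contra hne
        exact hi n (Or.inl hne)
      have h4 : ∀ n, φ (hh (z (b n))) i = 0 := by
        intro n
        by_contra hne
        exact hi n (Or.inr hne)
      simp only [h3] at h1
      simp only [h4] at h2
      rw [tendsto_nhds_unique h1 tendsto_const_nhds, tendsto_nhds_unique h2 tendsto_const_nhds]
  have hfix : x = hh x := hφ.injective heq
  have h1 : x.1 α = -(x.1 α) := by
    have := congrArg (fun c : KK => c.1 α) hfix
    simpa [hh] using this
  revert h1 hxα
  generalize x.1 α = s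
  rcases s with _ | _ | _ <;> decide

end Pool.Agent.H61.Valdivia
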